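import Pool.Agent.Lib.MP_b31404_co.Core

namespace Pool.Agent.Lib.MP_b31404_co
open Finset

variable {V ι : Type} [DecidableEq V] [LinearOrder ι] (p : V → ι)

lemma sum_two (W Lo : Finset V) (hLo : Lo ⊆ W) (a b : ℕ) :
    ∑ v ∈ W, (if v ∈ Lo then a else b) = Lo.card * a + (W \ Lo).card * b := by
  rw [sum_ite, sum_const, sum_const, smul_eq_mul, smul_eq_mul]
  congr 2
  · congr 1; ext x; simp only [mem_filter]; exact ⟨fun h => h.2, fun h => ⟨hLo h, h⟩⟩
  · congr 1; ext x; simp

/-- condition (ii) for `q ≥ 1` -/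
lemma cond_two {W Lo : Finset V} {a hi : ℕ} (hLo : Lo ⊆ W) (h1 : OneSplit p W Lo)
    (h2 : ∀ x ∈ Lo, ∀ y ∈ W, y ∉ Lo → dg p W x ≤ dg p W y) (ha : hi ≤ 2 * a)
    (hE : Lo.card * a + (W \ Lo).card * hi ≤ eg p W) :
    eg p Lo + (W \ Lo).card * hi ≤ eg p W := by
  by_contra hc
  have hlt : ∑ _v ∈ Lo, hi < ∑ v ∈ Lo, dg p Lo v := by
    rw [← two_eg, sum_const, smul_eq_mul]
    have : Lo.card * hi ≤ Lo.card * (2 * a) := Nat.mul_le_mul_left _ ha
    have : Lo.card * (2 * a) = 2 * (Lo.card * a) := by ring
    omega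
  obtain ⟨u, hu, hud⟩ := exists_lt_of_sum_lt hlt
  have hge := eg_union_ge p (T := Lo) (A := W \ Lo) disjoint_sdiff
  rw [union_sdiff_of_subset hLo] at hge
  have : ∑ _v ∈ W \ Lo, hi ≤ ∑ v ∈ W \ Lo, dg p Lo v := by
    refine sum_le_sum fun y hy => ?_
    rw [mem_sdiff] at hy
    by_cases hp : p u = p y
    · rw [← dg_congr p Lo hp]; omega
    by_cases hs : ∀ x ∈ Lo, p x ≠ p y
    · have := dg_full p hs; have := dg_lt p hu; omega
    push Not at hs
    obtain ⟨x, hx, hxy⟩ := hs
    have b1 := dg_add p Lo u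
    have b2 := dg_add p Lo y
    have b3 := dg_add p W u
    have b4 := dg_add p W y
    have b5 := h2 u hu y hy.1 hy.2
    have b6 : (W.filter fun v => p v = p u).card ≤ (Lo.filter fun v => p v = p u).card := by
      refine card_le_card fun v hv => ?_
      rw [mem_filter] at hv ⊢
      refine ⟨?_, hv.2⟩
      by_contra hvL
      exact hp ((h1 u hu v hv.1 hvL hv.2.symm x hx y hy.1 hy.2 hxy).trans hxy)
    have b7 : (Lo.filter fun v => p v = p y).card ≤ (W.filter fun v => p v = p y).card :=
      card_le_card (filter_subset_filter _ hLo)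
    omega
  rw [sum_const, smul_eq_mul] at this
  omega

/-- condition (i) for `q ≥ 1` -/
lemma cond_one {W Lo : Finset V} {s q : ℕ} (hLo : Lo ⊆ W)
    (h2 : ∀ x ∈ Lo, ∀ y ∈ W, y ∉ Lo → dg p W x ≤ dg p W y) (hq : 1 ≤ q)
    (hE : s * (q * W.card + (W \ Lo).card) ≤ eg p W) (y : V) (hy : y ∈ W) (hyL : y ∉ Lo)
    (hsm : (W.filter fun v => p v = p y).card < 2 * s) : s * (q + 1) ≤ dg p W y := by
  by_contra hc
  have b1 := dg_add p W y
  set N := W.card
  set r := (W \ Lo).card with hr
  set c := (W.filter fun v => p v = p y).card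
  set D := dg p W y
  have hrN : r ≤ N := card_le_card sdiff_subset
  have hN : 0 < N := card_pos.2 ⟨y, hy⟩
  have b2 : 2 * eg p W ≤ N * D + r * c := by
    rw [two_eg]
    have : ∑ v ∈ W, dg p W v ≤ ∑ v ∈ W, (if v ∈ Lo then D else D + c) := by
      refine sum_le_sum fun v hv => ?_
      split_ifs with h
      · exact h2 v h y hy hyL
      · have := dg_lt p hv; omega
    rw [sum_two W Lo hLo] at this
    have e : Lo.card + r = N := by rw [hr, card_sdiff_of_subset hLo]; have := card_le_card hLo; omega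
    rw [← hr] at this
    calc _ ≤ _ := this
      _ = N * D + r * c := by rw [← e]; ring
  obtain ⟨q', rfl⟩ : ∃ q', q = q' + 1 := ⟨q - 1, by omega⟩
  obtain ⟨m, hm⟩ : ∃ m, N = r + m := ⟨N - r, by omega⟩
  rcases le_or_gt c D with h | h
  · have f1 : r * c ≤ r * D := Nat.mul_le_mul_left _ h
    have f2 : (N + r) * (D + 1) ≤ (N + r) * (s * (q' + 1 + 1)) := Nat.mul_le_mul_left _ (by omega)
    have f3 : (N + r) * (s * (q' + 1 + 1)) + s * q' * m = 2 * (s * ((q' + 1) * N + r)) := by
      rw [hm]; ring
    nlinarith [Nat.zero_le (s * q' * m)]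
  · have f1 : (c + 1) * (N + r) ≤ (2 * s) * (N + r) := Nat.mul_le_mul_right _ (by omega)
    have f2 : N * D ≤ N * c := Nat.mul_le_mul_left _ h.le
    have f3 : 2 * (s * ((q' + 1) * N + r)) = (2 * s) * (N + r) + 2 * s * q' * N := by ring
    nlinarith [Nat.zero_le (2 * s * q' * N)]

lemma big {s : ℕ} (hs : 1 ≤ s) : ∀ (N : ℕ) (W : Finset V), W.card = N →
    (∀ v ∈ W, s ≤ dg p W v) → (∃ i, s * (W.filter fun v => p v ≠ i).card ≤ eg p W) →
    ∃ c : V → ℕ, ∑ v ∈ W, c v = eg p W / s ∧ Feas p W (fun v => s * c v) := by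
  intro N
  induction N using Nat.strong_induction_on with
  | _ N ih =>
  intro W hW hdeg ⟨i, hi⟩
  by_cases hbig : ∃ y ∈ W, 2 * s ≤ (W.filter fun v => p v = p y).card
  · obtain ⟨y, hy, hcard⟩ := hbig
    obtain ⟨A, hA, hAc⟩ := exists_subset_card_eq (s := W.filter fun v => p v = p y) (n := s)
      (by omega)
    have hAW : A ⊆ W := hA.trans (filter_subset _ _)
    have hAp : ∀ a ∈ A, p a = p y := fun a ha => (mem_filter.1 (hA ha)).2
    have hU : (W \ A) ∪ A = W := sdiff_union_of_subset hAW
    have hD : Disjoint (W \ A) A := sdiff_disjoint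
    set W' := W \ A with hW'
    set P' := W'.filter fun v => p v = p y with hP'
    have hP : s ≤ P'.card := by
      have : (W.filter fun v => p v = p y) ⊆ P' ∪ A := by
        intro v hv
        rw [mem_filter] at hv
        by_cases h : v ∈ A <;> simp [hP', hW', h, hv.1, hv.2]
      have := card_le_card this
      have := card_union_le P' A
      omega
    set M := (W'.filter fun v => p v ≠ p y).card with hM
    have hE : eg p W = eg p W' + s * M := by
      have := eg_union_eq p hD hAp; rwa [hU, hAc] at this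
    have hE' : s * M ≤ eg p W' := by
      have := eg_union_eq p (T := W'.filter fun v => p v ≠ p y) (A := P') (i := p y)
        (by rw [hP']; exact disjoint_filter.2 fun x _ h => h)
        (fun a ha => (mem_filter.1 ha).2)
      rw [union_comm, hP', filter_union_filter_not_eq, filter_filter] at this
      simp only [and_self] at this
      have h2 : s * M ≤ P'.card * M := Nat.mul_le_mul_right _ hP
      rw [hP', hM] at h2
      rw [hM]
      omega
    obtain ⟨c', hc1, hc2⟩ := ih W'.card (by
        have := card_le_card hAW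
        rw [hW', card_sdiff_of_subset hAW]; omega) W' rfl (by
        intro v hv
        by_cases h : p v = p y
        · have := dg_union_same p (T := W') (A := A) (v := v) (fun a ha => (hAp a ha).trans h.symm)
          rw [hU] at this; rw [← this]; exact hdeg v (mem_sdiff.1 hv).1
        · rw [dg_eq]
          refine hP.trans (card_le_card fun u hu => ?_)
          rw [hP', mem_filter] at hu
          rw [mem_filter]; exact ⟨hu.1, fun h' => h (h'.symm.trans hu.2)⟩) ⟨p y, hE'⟩
    refine ⟨fun v => if v ∈ A then 0 else c' v + if p v ≠ p y then 1 else 0, ?_, ?_⟩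
    · rw [hE, Nat.add_mul_div_left _ _ hs, ← hc1, hM, card_filter, ← sum_add_distrib]
      nth_rewrite 1 [← hU]
      rw [sum_union hD, sum_eq_zero (s := A) (fun a ha => by simp [ha]), add_zero]
      exact sum_congr rfl fun v hv => by simp [(mem_sdiff.1 hv).2]
    · rw [← hU]
      refine strip p hD hAp hc2 (fun a ha => by simp [ha]) fun v hv => ?_
      have := (mem_sdiff.1 hv).2
      by_cases h : p v = p y <;> simp [this, h, hAc, mul_add]
  · push Not at hbig
    set k := eg p W / s with hk
    have hks : s * k ≤ eg p W := Nat.mul_div_le _ _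
    rcases Nat.eq_zero_or_pos N with h0 | hN
    · have : W = ∅ := card_eq_zero.1 (by omega)
      subst this
      exact ⟨fun _ => 0, by simp [hk, eg], fun T hT => by simp [subset_empty.1 hT]⟩
    have hdm := Nat.div_add_mod k N
    have hr : k % N < N := Nat.mod_lt _ hN
    set q := k / N
    set r := k % N
    have fin : ∀ Lo ⊆ W, Lo.card = N - r → OneSplit p W Lo →
        eg p Lo + (W \ Lo).card * (s * (q + 1)) ≤ eg p W →
        (∀ y ∈ W, y ∉ Lo → s * (q + 1) ≤ dg p W y) →
        ∃ c : V → ℕ, ∑ v ∈ W, c v = k ∧ Feas p W (fun v => s * c v) := by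
      intro Lo hLo hc h1 h2 h3
      have hcr : (W \ Lo).card = r := by rw [card_sdiff_of_subset hLo]; omega
      obtain ⟨m, hm⟩ : ∃ m, N = r + m := ⟨N - r, by omega⟩
      have hm' : Lo.card = m := by omega
      have hsum : Lo.card * q + (W \ Lo).card * (q + 1) = k := by
        rw [hcr, hm', ← hdm, hm]; ring
      refine ⟨fun v => if v ∈ Lo then q else q + 1, by rw [sum_two W Lo hLo, hsum], ?_⟩
      have := bal p (lo := s * q) (hi := s * (q + 1)) hLo (Nat.mul_le_mul_left _ (by omega)) h1
        (by rw [sum_two W Lo hLo]; refine le_trans (le_of_eq ?_) hks; rw [← hsum]; ring) h2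
        (fun y hy hyL _ _ _ => h3 y hy hyL)
      simpa only [mul_ite] using this
    rcases Nat.eq_zero_or_pos q with hq | hq
    · have hkr : k = r := by rw [← hdm, hq]; simp
      have hM : (W.filter fun v => p v ≠ i).card ≤ k := by
        rw [hk, Nat.le_div_iff_mul_le hs, mul_comm]; exact hi
      have hadd := card_filter_add_card_filter_not (s := W) (fun v => p v = i)
      obtain ⟨Lo, hLo, hLc⟩ := exists_subset_card_eq (s := W.filter fun v => p v = i)
        (n := N - r) (by simp only [← ne_eq] at hadd; omega)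
      have hLp : ∀ a ∈ Lo, p a = i := fun a ha => (mem_filter.1 (hLo ha)).2
      have hLW : Lo ⊆ W := hLo.trans (filter_subset _ _)
      refine fin Lo hLW hLc (fun x hx _ _ _ _ x' hx' _ _ _ _ => (hLp x hx).trans (hLp x' hx').symm)
        ?_ (fun y hy _ => by rw [hq]; simpa using hdeg y hy)
      have h0 := eg_union_eq p (T := ∅) (A := Lo) (by simp) hLp
      have hcr : (W \ Lo).card = r := by rw [card_sdiff_of_subset hLW]; omega
      simp only [empty_union, filter_empty, card_empty, mul_zero, add_zero] at h0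
      have h00 : eg p (∅ : Finset V) = 0 := by simp [eg]
      rw [h0, h00, hcr, hq, ← hkr]; simpa [mul_comm] using hks
    · obtain ⟨Lo, hLo, hLc, h1, h2⟩ := greedy p W (N - r) (by omega)
      have hcr : (W \ Lo).card = r := by rw [card_sdiff_of_subset hLo]; omega
      obtain ⟨m, hm⟩ : ∃ m, N = r + m := ⟨N - r, by omega⟩
      have hm' : Lo.card = m := by omega
      refine fin Lo hLo hLc h1 (cond_two p (a := s * q) hLo h1 h2 (by nlinarith) ?_)
        (fun y hy hyL => cond_one p hLo h2 hq ?_ y hy hyL (hbig y hy))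
      · refine le_trans (le_of_eq ?_) hks; rw [hcr, hm', ← hdm, hm]; ring
      · refine le_trans (le_of_eq ?_) hks; rw [hcr, hW, ← hdm]; ring

end Pool.Agent.Lib.MP_b31404_co
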