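import Mathlib

namespace Pool.Agent.Lib.MP_b31404_co

/-- `G` contains `k` pairwise edge-disjoint stars `K_{1,s}`: star `j` has centre `c j` and
the `s` leaves `L j`, all adjacent to the centre, and no edge belongs to two stars. -/
def HasStars {V : Type} (G : SimpleGraph V) (s k : ℕ) : Prop :=
  ∃ (c : Fin k → V) (L : Fin k → Finset V),
    (∀ j, (L j).card = s ∧ ∀ x ∈ L j, G.Adj (c j) x) ∧
    ∀ j j', j ≠ j' → ∀ x ∈ L j, ∀ y ∈ L j', s(c j, x) ≠ s(c j', y)

/-- The number of vertices of part `i` among the first `t` vertices, parts taken in order. -/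
def fill {r : ℕ} (n : Fin r → ℕ) (t : ℕ) (i : Fin r) : ℕ :=
  min (n i) (t - ∑ j ∈ Finset.Iio i, n j)

/-- The number of edges spanned by the first `t` vertices. -/
def edgesOn {r : ℕ} (n : Fin r → ℕ) (t : ℕ) : ℕ :=
  ∑ j, ∑ i ∈ Finset.Iio j, fill n t i * fill n t j

end Pool.Agent.Lib.MP_b31404_co
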