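import Pool.Agent.Lib.MP_b31404_co.Core
import Pool.Agent.Lib.MP_b31404_co.Defs

namespace Pool.Agent.Lib.MP_b31404_co
open Finset

lemma sum_Iio' {r : ℕ} (f : Fin r → ℕ) (i : Fin r) :
    ∑ j ∈ Iio i, f j = ∑ j, if j < i then f j else 0 := by
  rw [← sum_filter]; congr 1; ext j; simp

lemma fill_zero {r : ℕ} (n : Fin (r + 1) → ℕ) (t : ℕ) : fill n t 0 = min (n 0) t := by
  simp [fill, sum_Iio']

lemma fill_succ {r : ℕ} (n : Fin (r + 1) → ℕ) (t : ℕ) (i : Fin r) :
    fill n t i.succ = fill (fun j => n j.succ) (t - n 0) i := by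
  simp only [fill, sum_Iio', Fin.sum_univ_succ, Fin.succ_pos, if_true, Fin.succ_lt_succ_iff,
    Nat.sub_sub]

lemma sum_fill : ∀ {r : ℕ} (n : Fin r → ℕ) (t : ℕ), ∑ i, fill n t i = min t (∑ i, n i)
  | 0, n, t => by simp
  | r + 1, n, t => by
    have ih := sum_fill (fun j : Fin r => n j.succ) (t - n 0)
    simp only [Fin.sum_univ_succ, fill_zero, fill_succ, ih]; omega

lemma fill_all {r : ℕ} (n : Fin r → ℕ) (i : Fin r) : fill n (∑ j, n j) i = n i := by
  unfold fill
  have : ∑ j ∈ insert i (Iio i), n j ≤ ∑ j, n j := sum_le_sum_of_subset (subset_univ _)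
  rw [sum_insert (by simp)] at this
  omega

def FF {r : ℕ} (n : Fin r → ℕ) (t : ℕ) : ℕ := ∑ i, fill n t i ^ 2

lemma FF_succ {r : ℕ} (n : Fin (r + 1) → ℕ) (t : ℕ) :
    FF n t = min (n 0) t ^ 2 + FF (fun j => n j.succ) (t - n 0) := by
  simp only [FF, Fin.sum_univ_succ, fill_zero, fill_succ]

lemma FF_le : ∀ {r : ℕ} (n : Fin r → ℕ) (t : ℕ), FF n t ≤ t ^ 2
  | 0, n, t => by simp [FF]
  | r + 1, n, t => by
    rw [FF_succ]
    have := FF_le (fun j : Fin r => n j.succ) (t - n 0)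
    rcases le_total (n 0) t with h | h
    · obtain ⟨m, rfl⟩ := Nat.exists_eq_add_of_le h
      rw [min_eq_left h]; rw [Nat.add_sub_cancel_left] at this ⊢; nlinarith [Nat.zero_le (n 0 * m)]
    · rw [min_eq_right h]; rw [Nat.sub_eq_zero_of_le h] at this ⊢; omega

lemma FF_step : ∀ {r : ℕ} (n : Fin r → ℕ) (a δ R : ℕ), (∀ i, n i ≤ a + δ) →
    a ^ 2 + FF n (R + δ) ≤ (a + δ) ^ 2 + FF n R
  | 0, n, a, δ, R, _ => by simp only [FF, univ_eq_empty, sum_empty]; nlinarith [Nat.zero_le (a * δ), Nat.zero_le (δ * δ)]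
  | r + 1, n, a, δ, R, h => by
    rw [FF_succ, FF_succ]
    have h0 := h 0
    rcases le_total (n 0) R with h1 | h1
    · have := FF_step (fun j : Fin r => n j.succ) a δ (R - n 0) fun i => h _
      rw [min_eq_left h1, min_eq_left (by omega), show R + δ - n 0 = R - n 0 + δ by omega]
      omega
    · rw [min_eq_right h1]
      have h2 := FF_le (fun j : Fin r => n j.succ) (R + δ - n 0)
      rcases le_total (n 0) (R + δ) with h3 | h3
      · rw [min_eq_left h3]
        obtain ⟨β, hβ⟩ := Nat.exists_eq_add_of_le h1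
        obtain ⟨α, hα⟩ : ∃ α, δ = α + β := ⟨δ - β, by omega⟩
        rw [show R + δ - n 0 = α by omega] at h2 ⊢
        obtain ⟨γ, hγ⟩ : ∃ γ, a + α = R + γ := ⟨a + α - R, by omega⟩
        have e : (a + δ) ^ 2 + R ^ 2 = a ^ 2 + (n 0 ^ 2 + α ^ 2) + 2 * (a * α + β * γ) := by
          rw [hβ, hα]; nlinarith
        omega
      · rw [min_eq_right h3]
        rw [Nat.sub_eq_zero_of_le h3] at h2 ⊢
        have : R * δ ≤ a * δ := Nat.mul_le_mul_right _ (by omega)
        nlinarith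

lemma sq_le_FF : ∀ {r : ℕ} (n t : Fin r → ℕ), Antitone n → (∀ i, t i ≤ n i) →
    ∑ i, t i ^ 2 ≤ FF n (∑ i, t i)
  | 0, n, t, _, _ => by simp
  | r + 1, n, t, hn, h => by
    have ih := sq_le_FF (fun j : Fin r => n j.succ) (fun j => t j.succ)
      (fun a b hab => hn (Fin.succ_le_succ_iff.2 hab)) fun i => h _
    rw [Fin.sum_univ_succ, Fin.sum_univ_succ, FF_succ]
    set R := ∑ j : Fin r, t j.succ
    rcases le_total (n 0) (t 0 + R) with h1 | h1
    · obtain ⟨δ, hδ⟩ := Nat.exists_eq_add_of_le (h 0)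
      have := FF_step (fun j : Fin r => n j.succ) (t 0) δ (R - δ)
        fun i => hδ ▸ hn (Fin.zero_le _)
      rw [show R - δ + δ = R by omega, ← hδ] at this
      rw [min_eq_left h1, show t 0 + R - n 0 = R - δ by omega]
      omega
    · rw [min_eq_right h1]
      have := FF_le (fun j : Fin r => n j.succ) R
      nlinarith [Nat.zero_le (t 0 * R), Nat.zero_le (FF (fun j : Fin r => n j.succ) (t 0 + R - n 0))]

lemma two_pairs {r : ℕ} (a : Fin r → ℕ) :
    2 * (∑ j, ∑ i ∈ Iio j, a i * a j) + ∑ i, a i ^ 2 = (∑ i, a i) ^ 2 := by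
  simp only [sum_Iio']
  rw [two_mul, sq (∑ i, a i), sum_mul_sum]
  nth_rewrite 1 [sum_comm]
  rw [← sum_add_distrib, ← sum_add_distrib]
  refine sum_congr rfl fun j _ => ?_
  have : a j ^ 2 = ∑ i, if i = j then a j * a i else 0 := by simp [sq]
  rw [this, ← sum_add_distrib, ← sum_add_distrib]
  refine sum_congr rfl fun i _ => ?_
  rcases lt_trichotomy i j with h | h | h
  · simp [h, h.ne, not_lt_of_gt h, mul_comm]
  · simp [h]
  · simp [h, h.ne', not_lt_of_gt h]

variable {r : ℕ} (n : Fin r → ℕ)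

abbrev VV := Σ i : Fin r, Fin (n i)

def cnt (T : Finset (VV n)) (i : Fin r) : ℕ := (T.filter fun v => v.1 = i).card

lemma sum_fib (T : Finset (VV n)) (f : Fin r → ℕ) :
    ∑ v ∈ T, f v.1 = ∑ i, cnt n T i * f i := by
  rw [← sum_fiberwise_of_maps_to (s := T) (t := univ) (g := Sigma.fst) (fun _ _ => mem_univ _)]
  refine sum_congr rfl fun i _ => ?_
  rw [sum_congr rfl (g := fun _ => f i) (fun v hv => by rw [(mem_filter.1 hv).2]), sum_const,
    smul_eq_mul, cnt]

lemma card_cnt (T : Finset (VV n)) : T.card = ∑ i, cnt n T i := by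
  simpa using sum_fib n T fun _ => 1

lemma eg_cnt (T : Finset (VV n)) :
    eg Sigma.fst T = ∑ j, ∑ i ∈ Iio j, cnt n T i * cnt n T j := by
  unfold eg
  rw [sum_fib n T fun i => ∑ v ∈ T, if i < v.1 then 1 else 0]
  simp only [sum_Iio']
  rw [sum_comm]
  refine sum_congr rfl fun i _ => ?_
  rw [sum_fib n T fun j => if i < j then 1 else 0, mul_sum]
  exact sum_congr rfl fun j _ => by split_ifs <;> simp

lemma cnt_pred (P : (i : Fin r) → ℕ → Prop) [∀ i a, Decidable (P i a)] (i : Fin r) :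
    cnt n (univ.filter fun v => P v.1 v.2) i = ((range (n i)).filter (P i)).card := by
  unfold cnt
  symm
  refine card_bij (fun a ha => ⟨i, ⟨a, mem_range.1 (mem_filter.1 ha).1⟩⟩) ?_ ?_ ?_
  · intro a ha; simpa using (mem_filter.1 ha).2
  · intro a ha b hb h; simpa using h
  · rintro ⟨j, a⟩ hv
    simp only [mem_filter, mem_univ, true_and] at hv
    obtain ⟨h1, rfl⟩ := hv
    exact ⟨a, mem_filter.2 ⟨mem_range.2 a.2, h1⟩, rfl⟩

lemma cnt_univ (i : Fin r) : cnt n univ i = n i := by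
  simpa using cnt_pred n (fun _ _ => True) i

lemma cnt_le (T : Finset (VV n)) (i : Fin r) : cnt n T i ≤ n i :=
  (card_le_card (filter_subset_filter _ (subset_univ T))).trans (cnt_univ n i).le

lemma edgesOn_le (hn : Antitone n) (T : Finset (VV n)) : edgesOn n T.card ≤ eg Sigma.fst T := by
  have h1 := two_pairs (cnt n T)
  have h2 := two_pairs (fill n T.card)
  have h3 := sq_le_FF n (cnt n T) hn (cnt_le n T)
  have h4 : T.card ≤ ∑ i, n i := by rw [card_cnt]; exact sum_le_sum fun i _ => cnt_le n T i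
  rw [sum_fill, min_eq_left h4] at h2
  rw [← card_cnt] at h1 h3
  rw [eg_cnt]; unfold edgesOn; unfold FF at h3; omega

def low (t : ℕ) : Finset (VV n) := univ.filter fun v => (∑ j ∈ Iio v.1, n j) + v.2 < t

lemma cnt_low (t : ℕ) (i : Fin r) : cnt n (low n t) i = fill n t i := by
  unfold low
  rw [cnt_pred n (fun i a => (∑ j ∈ Iio i, n j) + a < t) i, fill, ← card_range (min _ _)]
  congr 1; ext a; simp only [mem_filter, mem_range, lt_min_iff]; omega

lemma eg_low (t : ℕ) : eg Sigma.fst (low n t) = edgesOn n t := by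
  simp only [eg_cnt, cnt_low, edgesOn]

lemma card_low {t : ℕ} (ht : t ≤ ∑ i, n i) : (low n t).card = t := by
  simp only [card_cnt, cnt_low, sum_fill]; omega

lemma low_lt {t : ℕ} {x y : VV n} (hx : x ∈ low n t) (h : y.1 < x.1) : y ∈ low n t := by
  simp only [low, mem_filter, mem_univ, true_and] at hx ⊢
  have : ∑ j ∈ insert y.1 (Iio y.1), n j ≤ ∑ j ∈ Iio x.1, n j :=
    sum_le_sum_of_subset fun j hj => by
      rcases mem_insert.1 hj with rfl | hj
      · exact mem_Iio.2 h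
      · exact mem_Iio.2 ((mem_Iio.1 hj).trans h)
  rw [sum_insert (by simp)] at this
  have := y.2.2
  omega

lemma low_split (t : ℕ) (W Lo : Finset (VV n)) (h : ∀ v ∈ W, v ∈ Lo ↔ v ∈ low n t) (hLo : Lo ⊆ W) :
    OneSplit Sigma.fst W Lo := by
  intro x hx y hy hyL hxy x' hx' y' hy' hyL' hxy'
  rcases lt_trichotomy x.1 x'.1 with c | c | c
  · exact absurd ((h y hy).2 (low_lt n ((h x' (hLo hx')).1 hx') (hxy ▸ c))) hyL
  · exact c
  · exact absurd ((h y' hy').2 (low_lt n ((h x (hLo hx)).1 hx) (hxy' ▸ c))) hyL'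

lemma dg_univ (v : VV n) : dg Sigma.fst univ v = (∑ i, n i) - n v.1 := by
  have h := dg_add Sigma.fst (univ : Finset (VV n)) v
  have h2 : ∀ inst : DecidablePred fun u : VV n => u.1 = v.1,
      (@filter _ (fun u : VV n => u.1 = v.1) inst univ).card = n v.1 := fun inst => by
    rw [← cnt_univ n v.1]; unfold cnt; congr
  have h3 := card_cnt n univ
  simp only [cnt_univ] at h3
  rw [h2] at h
  omega

end Pool.Agent.Lib.MP_b31404_co
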