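import Mathlib

namespace Pool.Agent.Lib.MP_b31404_co
open Finset

variable {V ι : Type} [DecidableEq V] [LinearOrder ι] (p : V → ι)

def dg (T : Finset V) (v : V) : ℕ := ∑ u ∈ T, if p u ≠ p v then 1 else 0

def eg (T : Finset V) : ℕ := ∑ u ∈ T, ∑ v ∈ T, if p u < p v then 1 else 0

def Feas (W : Finset V) (w : V → ℕ) : Prop :=
  ∀ T ⊆ W, eg p T + ∑ v ∈ W \ T, w v ≤ eg p W

lemma ind_split (a b : ι) :
    (if a < b then 1 else 0) + (if b < a then 1 else 0) = (if a ≠ b then 1 else 0 : ℕ) := by
  rcases lt_trichotomy a b with h | h | h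
  · simp [h, h.ne, not_lt_of_gt h]
  · simp [h]
  · simp [h, h.ne', not_lt_of_gt h]

lemma eg_insert {T : Finset V} {v : V} (hv : v ∉ T) :
    eg p (insert v T) = eg p T + dg p T v := by
  unfold eg dg
  rw [sum_insert hv, sum_insert hv]
  simp only [sum_insert hv, lt_irrefl, if_false, zero_add, sum_add_distrib]
  have : ∑ u ∈ T, (if p u ≠ p v then 1 else 0 : ℕ)
      = ∑ u ∈ T, (if p u < p v then 1 else 0) + ∑ u ∈ T, (if p v < p u then 1 else 0) := by
    rw [← sum_add_distrib]; exact sum_congr rfl fun u _ => (ind_split _ _).symm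
  omega

omit [DecidableEq V] in
lemma two_eg (T : Finset V) : 2 * eg p T = ∑ v ∈ T, dg p T v := by
  unfold eg dg
  rw [two_mul]
  nth_rewrite 1 [sum_comm]
  rw [← sum_add_distrib]
  refine sum_congr rfl fun v _ => ?_
  rw [← sum_add_distrib]
  exact sum_congr rfl fun u _ => ind_split _ _

omit [DecidableEq V] in
lemma dg_mono {T T' : Finset V} (h : T ⊆ T') (v : V) : dg p T v ≤ dg p T' v :=
  sum_le_sum_of_subset h

omit [DecidableEq V] in
lemma dg_congr (T : Finset V) {u v : V} (h : p u = p v) : dg p T u = dg p T v := by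
  unfold dg; rw [h]

omit [DecidableEq V] in
lemma dg_eq (T : Finset V) (v : V) : dg p T v = (T.filter fun u => p u ≠ p v).card := by
  unfold dg; rw [card_filter]

omit [DecidableEq V] in
lemma dg_add (T : Finset V) (v : V) :
    dg p T v + (T.filter fun u => p u = p v).card = T.card := by
  rw [dg_eq, add_comm]; exact card_filter_add_card_filter_not _

omit [DecidableEq V] in
lemma dg_lt {T : Finset V} {u : V} (hu : u ∈ T) : dg p T u < T.card := by
  have h := dg_add p T u
  have : 0 < (T.filter fun x => p x = p u).card := card_pos.2 ⟨u, by simp [hu]⟩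
  omega

omit [DecidableEq V] in
lemma dg_full {T : Finset V} {v : V} (h : ∀ u ∈ T, p u ≠ p v) : dg p T v = T.card := by
  rw [dg_eq, filter_true_of_mem h]

lemma eg_union_ge {T A : Finset V} (h : Disjoint T A) :
    eg p T + ∑ v ∈ A, dg p T v ≤ eg p (T ∪ A) := by
  induction A using Finset.induction_on with
  | empty => simp
  | insert a A ha ih =>
    rw [disjoint_insert_right] at h
    have h1 : a ∉ T ∪ A := by simp [ha, h.1]
    rw [union_insert, eg_insert p h1, sum_insert ha]
    have := ih h.2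
    have := dg_mono p (subset_union_left (s₁ := T) (s₂ := A)) a
    omega

lemma eg_mono {T T' : Finset V} (h : T ⊆ T') : eg p T ≤ eg p T' := by
  have := eg_union_ge p (T := T) (A := T' \ T) disjoint_sdiff
  rw [union_sdiff_of_subset h] at this
  omega

lemma dg_union_same {T A : Finset V} {v : V} (hA : ∀ a ∈ A, p a = p v) :
    dg p (T ∪ A) v = dg p T v := by
  rw [dg_eq, dg_eq]; congr 1; ext u
  simp only [mem_filter, mem_union]
  constructor
  · rintro ⟨h | h, h2⟩
    · exact ⟨h, h2⟩
    · exact absurd (hA u h) h2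
  · rintro ⟨h, h2⟩; exact ⟨Or.inl h, h2⟩

lemma eg_union_eq {T A : Finset V} {i : ι} (h : Disjoint T A) (hA : ∀ a ∈ A, p a = i) :
    eg p (T ∪ A) = eg p T + A.card * (T.filter fun u => p u ≠ i).card := by
  induction A using Finset.induction_on with
  | empty => simp
  | insert a A ha ih =>
    rw [disjoint_insert_right] at h
    have h1 : a ∉ T ∪ A := by simp [ha, h.1]
    have hai : p a = i := hA a (by simp)
    rw [union_insert, eg_insert p h1, card_insert_of_notMem ha,
      ih h.2 (fun x hx => hA x (by simp [hx])),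
      dg_union_same p (fun x hx => by rw [hA x (by simp [hx]), hai]), dg_eq, hai]
    ring

/-- at most one class is split by `Lo` -/
def OneSplit (W Lo : Finset V) : Prop :=
  ∀ x ∈ Lo, ∀ y ∈ W, y ∉ Lo → p x = p y → ∀ x' ∈ Lo, ∀ y' ∈ W, y' ∉ Lo → p x' = p y' → p x = p x'

lemma bal {W Lo : Finset V} {lo hi : ℕ} (hLo : Lo ⊆ W) (hle : lo ≤ hi) (h1 : OneSplit p W Lo)
    (h0 : ∑ v ∈ W, (if v ∈ Lo then lo else hi) ≤ eg p W)
    (h2 : eg p Lo + (W \ Lo).card * hi ≤ eg p W)
    (h3 : ∀ y ∈ W, y ∉ Lo → ∀ x ∈ Lo, p x = p y → hi ≤ dg p W y) :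
    Feas p W (fun v => if v ∈ Lo then lo else hi) := by
  set w : V → ℕ := fun v => if v ∈ Lo then lo else hi with hw
  set h : Finset V → ℕ := fun T => eg p T + ∑ v ∈ W \ T, w v with hh
  obtain ⟨T0, hT0, hmax0⟩ := exists_max_image W.powerset h ⟨∅, by simp⟩
  obtain ⟨T, hT, hmin⟩ := exists_min_image (W.powerset.filter fun T => h T = h T0) card
    ⟨T0, by simp [mem_powerset.1 hT0]⟩
  rw [mem_filter, mem_powerset] at hT
  obtain ⟨hTW, hTe⟩ := hT
  have hmax : ∀ T' ⊆ W, h T' ≤ h T := fun T' h' => hTe ▸ hmax0 T' (mem_powerset.2 h')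
  suffices hs : h T ≤ eg p W from fun T' h' => (hmax T' h').trans hs
  have step : ∀ (S : Finset V) (v : V), v ∈ W → v ∉ S →
      h (insert v S) + w v = h S + dg p S v := by
    intro S v hv hvS
    have e1 : W \ S = insert v (W \ insert v S) := by
      ext x; by_cases hx : x = v <;> simp [hx, hv, hvS]
    have e2 : v ∉ W \ insert v S := by simp
    simp only [hh]
    rw [eg_insert p hvS, e1, sum_insert e2]; ring
  have hin : ∀ u ∈ T, w u < dg p T u := by
    intro u hu
    have s1 := step (T.erase u) u (hTW hu) (by simp)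
    rw [insert_erase hu] at s1
    have s2 : h (T.erase u) ≤ h T := hmax _ ((erase_subset _ _).trans hTW)
    have s3 : h (T.erase u) ≠ h T := by
      intro he
      have := hmin (T.erase u) (by
        rw [mem_filter, mem_powerset]; exact ⟨(erase_subset _ _).trans hTW, he.trans hTe⟩)
      have := card_erase_lt_of_mem hu
      omega
    have s4 := dg_mono p (erase_subset u T) u
    omega
  have hout : ∀ v ∈ W, v ∉ T → dg p T v ≤ w v := by
    intro v hv hvT
    have s1 := step T v hv hvT
    have s2 := hmax (insert v T) (insert_subset hv hTW)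
    omega
  have hlt : ∀ u v, w u < w v → u ∈ Lo ∧ v ∉ Lo := by
    intro u v huv
    simp only [hw] at huv
    by_cases a : u ∈ Lo <;> by_cases b : v ∈ Lo <;> simp [a, b] at huv ⊢ <;> omega
  rcases T.eq_empty_or_nonempty with rfl | ⟨u0, hu0⟩
  · simpa [hh, eg] using h0
  have hsame : ∀ v ∈ W, v ∉ T → ∀ u ∈ T, p u = p v → u ∈ Lo ∧ v ∉ Lo := by
    intro v hv hvT u hu hp
    exact hlt u v (by have := hin u hu; have := hout v hv hvT; have := dg_congr p T hp; omega)
  have hdiff : ∀ v ∈ W, v ∉ T → (∀ u ∈ T, p u ≠ p v) → ∀ u ∈ T, u ∈ Lo ∧ v ∉ Lo := by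
    intro v hv hvT hp u hu
    exact hlt u v (by
      have := hin u hu; have := hout v hv hvT; have := dg_full p hp; have := dg_lt p hu; omega)
  have hhigh : ∀ v ∈ W, v ∉ T → v ∉ Lo := by
    intro v hv hvT
    by_cases hp : ∀ u ∈ T, p u ≠ p v
    · exact (hdiff v hv hvT hp u0 hu0).2
    · push Not at hp
      obtain ⟨u, hu, hp⟩ := hp
      exact (hsame v hv hvT u hu hp).2
  have hsum : ∑ v ∈ W \ T, w v = (W \ T).card * hi := by
    rw [← smul_eq_mul, ← sum_const]
    refine sum_congr rfl fun v hv => ?_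
    rw [mem_sdiff] at hv
    simp [hw, hhigh v hv.1 hv.2]
  by_cases hTL : T ⊆ Lo
  · have : T = Lo := subset_antisymm hTL fun x hx => by
      by_contra hc; exact hhigh x (hLo hx) hc hx
    simp only [hh]; rw [hsum, this]; exact h2
  · have hsp : ∀ v ∈ W, v ∉ T → ∃ u ∈ Lo, p u = p v := by
      intro v hv hvT
      by_contra hc
      apply hTL
      intro u hu
      refine (hdiff v hv hvT (fun u' hu' hp => hc ⟨u', (hsame v hv hvT u' hu' hp).1, hp⟩) u hu).1
    have hge := eg_union_ge p (T := T) (A := W \ T) disjoint_sdiff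
    rw [union_sdiff_of_subset hTW] at hge
    have : ∑ v ∈ W \ T, w v ≤ ∑ v ∈ W \ T, dg p T v := by
      refine sum_le_sum fun v hv => ?_
      rw [mem_sdiff] at hv
      obtain ⟨u, hu, hp⟩ := hsp v hv.1 hv.2
      have a1 := h3 v hv.1 (hhigh v hv.1 hv.2) u hu hp
      have a2 : dg p (T ∪ (W \ T)) v = dg p T v := dg_union_same p fun a ha => by
        rw [mem_sdiff] at ha
        obtain ⟨u', hu', hp'⟩ := hsp a ha.1 ha.2
        rw [← hp', ← hp]
        exact h1 u' hu' a ha.1 (hhigh a ha.1 ha.2) hp' u hu v hv.1 (hhigh v hv.1 hv.2) hp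
      rw [union_sdiff_of_subset hTW] at a2
      simp only [hw, hhigh v hv.1 hv.2, if_false]; omega
    simp only [hh]; omega

lemma strip {W A : Finset V} {i : ι} {w w' : V → ℕ} (hd : Disjoint W A) (hA : ∀ a ∈ A, p a = i)
    (hF : Feas p W w') (h0 : ∀ a ∈ A, w a = 0)
    (h1 : ∀ v ∈ W, w v ≤ w' v + if p v ≠ i then A.card else 0) : Feas p (W ∪ A) w := by
  intro T hT
  have e1 : T = (T ∩ W) ∪ (T ∩ A) := by
    rw [← inter_union_distrib_left, inter_eq_left.2 hT]
  have d1 : Disjoint (T ∩ W) (T ∩ A) := hd.mono inter_subset_right inter_subset_right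
  have e2 := eg_union_eq p d1 (fun a ha => hA a (mem_inter.1 ha).2)
  rw [← e1] at e2
  have e3 := eg_union_eq p hd hA
  have e4 := hF (T ∩ W) inter_subset_right
  have e5 : ∑ v ∈ (W ∪ A) \ T, w v = ∑ v ∈ W \ (T ∩ W), w v := by
    symm
    refine sum_subset ?_ ?_
    · intro x; simp only [mem_sdiff, mem_inter, mem_union]; tauto
    · intro x hx hx'
      simp only [mem_sdiff, mem_inter, mem_union] at hx hx'
      exact h0 x (by tauto)
  have e6 : ∑ v ∈ W \ (T ∩ W), w v ≤ ∑ v ∈ W \ (T ∩ W), w' v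
      + A.card * ((W \ (T ∩ W)).filter fun u => p u ≠ i).card := by
    rw [card_filter, mul_sum, ← sum_add_distrib]
    refine sum_le_sum fun v hv => ?_
    have := h1 v (mem_sdiff.1 hv).1
    split_ifs at this ⊢ <;> omega
  have e7 : ((T ∩ W).filter fun u => p u ≠ i).card + ((W \ (T ∩ W)).filter fun u => p u ≠ i).card
      = (W.filter fun u => p u ≠ i).card := by
    rw [← card_union_of_disjoint (disjoint_filter_filter disjoint_sdiff), ← filter_union,
      union_sdiff_of_subset inter_subset_right]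
  have e8 : (T ∩ A).card * ((T ∩ W).filter fun u => p u ≠ i).card
      ≤ A.card * ((T ∩ W).filter fun u => p u ≠ i).card :=
    Nat.mul_le_mul_right _ (card_le_card inter_subset_right)
  rw [← e7, mul_add] at e3
  omega

lemma greedy (W : Finset V) (t : ℕ) (ht : t ≤ W.card) :
    ∃ Lo ⊆ W, Lo.card = t ∧ OneSplit p W Lo ∧
      ∀ x ∈ Lo, ∀ y ∈ W, y ∉ Lo → dg p W x ≤ dg p W y := by
  induction t with
  | zero => exact ⟨∅, by simp, by simp, by simp [OneSplit], by simp⟩
  | succ t ih =>
    obtain ⟨Lo, hLo, hc, h1, h2⟩ := ih (by omega)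
    by_cases hs : ∃ x ∈ Lo, ∃ y ∈ W, y ∉ Lo ∧ p x = p y
    · obtain ⟨x, hx, y, hy, hyL, hp⟩ := hs
      have key : ∀ a ∈ insert y Lo, ∀ b ∈ W, b ∉ insert y Lo → p a = p b → p a = p x := by
        intro a ha b hb hbL hab
        rcases mem_insert.1 ha with rfl | ha
        · exact hp.symm
        · exact h1 a ha b hb (fun h => hbL (by simp [h])) hab x hx y hy hyL hp
      refine ⟨insert y Lo, insert_subset hy hLo, by rw [card_insert_of_notMem hyL, hc], ?_, ?_⟩
      · intro a ha b hb hbL hab a' ha' b' hb' hbL' hab'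
        rw [key a ha b hb hbL hab, key a' ha' b' hb' hbL' hab']
      · intro a ha b hb hbL
        have hb' : b ∉ Lo := fun h => hbL (by simp [h])
        rcases mem_insert.1 ha with rfl | ha
        · rw [← dg_congr p W hp]; exact h2 x hx b hb hb'
        · exact h2 a ha b hb hb'
    · have hne : (W \ Lo).Nonempty := by
        rw [← card_pos, card_sdiff_of_subset hLo]; omega
      obtain ⟨y, hy, hmin⟩ := exists_min_image (W \ Lo) (dg p W) hne
      rw [mem_sdiff] at hy
      have key : ∀ a ∈ insert y Lo, ∀ b ∈ W, b ∉ insert y Lo → p a = p b → p a = p y := by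
        intro a ha b hb hbL hab
        rcases mem_insert.1 ha with rfl | ha
        · rfl
        · exact absurd ⟨a, ha, b, hb, fun h => hbL (by simp [h]), hab⟩ hs
      refine ⟨insert y Lo, insert_subset hy.1 hLo, by rw [card_insert_of_notMem hy.2, hc], ?_, ?_⟩
      · intro a ha b hb hbL hab a' ha' b' hb' hbL' hab'
        rw [key a ha b hb hbL hab, key a' ha' b' hb' hbL' hab']
      · intro a ha b hb hbL
        have hb' : b ∉ Lo := fun h => hbL (by simp [h])
        rcases mem_insert.1 ha with rfl | ha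
        · exact hmin b (mem_sdiff.2 ⟨hb, hb'⟩)
        · exact h2 a ha b hb hb'

end Pool.Agent.Lib.MP_b31404_co
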