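import Pool.Agent.Lib.MP_b31404_co.Big

namespace Pool.Agent.Lib.MP_b31404_co
open Finset

variable {V ι : Type} [DecidableEq V] [LinearOrder ι] (p : V → ι)

def Cov (W : Finset V) (w : V → ℕ) : Prop := ∀ T ⊆ W, eg p T ≤ ∑ v ∈ T, w v

lemma balM {W Lo : Finset V} {lo hi M : ℕ} (hLo : Lo ⊆ W) (hle : lo ≤ hi) (h1 : OneSplit p W Lo)
    (h0 : ∑ v ∈ W, (if v ∈ Lo then lo else hi) ≤ M) (hM : eg p W ≤ M)
    (h2 : eg p Lo + (W \ Lo).card * hi ≤ M)
    (h3 : ∀ y ∈ W, y ∉ Lo → ∀ x ∈ Lo, p x = p y → hi ≤ dg p W y) :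
    ∀ T ⊆ W, eg p T + ∑ v ∈ W \ T, (if v ∈ Lo then lo else hi) ≤ M := by
  set w : V → ℕ := fun v => if v ∈ Lo then lo else hi with hw
  set h : Finset V → ℕ := fun T => eg p T + ∑ v ∈ W \ T, w v with hh
  obtain ⟨T0, hT0, hmax0⟩ := exists_max_image W.powerset h ⟨∅, by simp⟩
  obtain ⟨T, hT, hmin⟩ := exists_min_image (W.powerset.filter fun T => h T = h T0) card
    ⟨T0, by simp [mem_powerset.1 hT0]⟩
  rw [mem_filter, mem_powerset] at hT
  obtain ⟨hTW, hTe⟩ := hT
  have hmax : ∀ T' ⊆ W, h T' ≤ h T := fun T' h' => hTe ▸ hmax0 T' (mem_powerset.2 h')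
  suffices hs : h T ≤ M from fun T' h' => (hmax T' h').trans hs
  have step : ∀ (S : Finset V) (v : V), v ∈ W → v ∉ S →
      h (insert v S) + w v = h S + dg p S v := by
    intro S v hv hvS
    have e1 : W \ S = insert v (W \ insert v S) := by
      ext x; by_cases hx : x = v <;> simp [hx, hv, hvS]
    have e2 : v ∉ W \ insert v S := by simp
    simp only [hh]
    rw [eg_insert p hvS, e1, sum_insert e2]; ring
  have hin : ∀ u ∈ T, w u < dg p T u := by
    intro u hu
    have s1 := step (T.erase u) u (hTW hu) (by simp)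
    rw [insert_erase hu] at s1
    have s2 : h (T.erase u) ≤ h T := hmax _ ((erase_subset _ _).trans hTW)
    have s3 : h (T.erase u) ≠ h T := by
      intro he
      have := hmin (T.erase u) (by
        rw [mem_filter, mem_powerset]; exact ⟨(erase_subset _ _).trans hTW, he.trans hTe⟩)
      have := card_erase_lt_of_mem hu
      omega
    have s4 := dg_mono p (erase_subset u T) u
    omega
  have hout : ∀ v ∈ W, v ∉ T → dg p T v ≤ w v := by
    intro v hv hvT
    have s1 := step T v hv hvT
    have s2 := hmax (insert v T) (insert_subset hv hTW)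
    omega
  have hlt : ∀ u v, w u < w v → u ∈ Lo ∧ v ∉ Lo := by
    intro u v huv
    simp only [hw] at huv
    by_cases a : u ∈ Lo <;> by_cases b : v ∈ Lo <;> simp [a, b] at huv ⊢ <;> omega
  rcases T.eq_empty_or_nonempty with rfl | ⟨u0, hu0⟩
  · simpa [hh, eg] using h0
  have hsame : ∀ v ∈ W, v ∉ T → ∀ u ∈ T, p u = p v → u ∈ Lo ∧ v ∉ Lo := by
    intro v hv hvT u hu hp
    exact hlt u v (by have := hin u hu; have := hout v hv hvT; have := dg_congr p T hp; omega)
  have hdiff : ∀ v ∈ W, v ∉ T → (∀ u ∈ T, p u ≠ p v) → ∀ u ∈ T, u ∈ Lo ∧ v ∉ Lo := by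
    intro v hv hvT hp u hu
    exact hlt u v (by
      have := hin u hu; have := hout v hv hvT; have := dg_full p hp; have := dg_lt p hu; omega)
  have hhigh : ∀ v ∈ W, v ∉ T → v ∉ Lo := by
    intro v hv hvT
    by_cases hp : ∀ u ∈ T, p u ≠ p v
    · exact (hdiff v hv hvT hp u0 hu0).2
    · push Not at hp
      obtain ⟨u, hu, hp⟩ := hp
      exact (hsame v hv hvT u hu hp).2
  have hsum : ∑ v ∈ W \ T, w v = (W \ T).card * hi := by
    rw [← smul_eq_mul, ← sum_const]
    refine sum_congr rfl fun v hv => ?_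
    rw [mem_sdiff] at hv
    simp [hw, hhigh v hv.1 hv.2]
  by_cases hTL : T ⊆ Lo
  · have : T = Lo := subset_antisymm hTL fun x hx => by
      by_contra hc; exact hhigh x (hLo hx) hc hx
    simp only [hh]; rw [hsum, this]; exact h2
  · have hsp : ∀ v ∈ W, v ∉ T → ∃ u ∈ Lo, p u = p v := by
      intro v hv hvT
      by_contra hc
      apply hTL
      intro u hu
      refine (hdiff v hv hvT (fun u' hu' hp => hc ⟨u', (hsame v hv hvT u' hu' hp).1, hp⟩) u hu).1
    have hge := eg_union_ge p (T := T) (A := W \ T) disjoint_sdiff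
    rw [union_sdiff_of_subset hTW] at hge
    have : ∑ v ∈ W \ T, w v ≤ ∑ v ∈ W \ T, dg p T v := by
      refine sum_le_sum fun v hv => ?_
      rw [mem_sdiff] at hv
      obtain ⟨u, hu, hp⟩ := hsp v hv.1 hv.2
      have a1 := h3 v hv.1 (hhigh v hv.1 hv.2) u hu hp
      have a2 : dg p (T ∪ (W \ T)) v = dg p T v := dg_union_same p fun a ha => by
        rw [mem_sdiff] at ha
        obtain ⟨u', hu', hp'⟩ := hsp a ha.1 ha.2
        rw [← hp', ← hp]
        exact h1 u' hu' a ha.1 (hhigh a ha.1 ha.2) hp' u hu v hv.1 (hhigh v hv.1 hv.2) hp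
      rw [union_sdiff_of_subset hTW] at a2
      simp only [hw, hhigh v hv.1 hv.2, if_false]; omega
    simp only [hh]; omega

lemma cond_two' {W Lo : Finset V} {a hi : ℕ} (hLo : Lo ⊆ W) (h1 : OneSplit p W Lo)
    (h2 : ∀ x ∈ Lo, ∀ y ∈ W, y ∉ Lo → dg p W x ≤ dg p W y) (ha : hi ≤ 2 * a)
    (hE : Lo.card * a < eg p Lo) :
    eg p Lo + (W \ Lo).card * hi ≤ eg p W := by
  have hlt : ∑ _v ∈ Lo, hi < ∑ v ∈ Lo, dg p Lo v := by
    rw [← two_eg, sum_const, smul_eq_mul]
    have : Lo.card * hi ≤ Lo.card * (2 * a) := Nat.mul_le_mul_left _ ha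
    have : Lo.card * (2 * a) = 2 * (Lo.card * a) := by ring
    omega
  obtain ⟨u, hu, hud⟩ := exists_lt_of_sum_lt hlt
  have hge := eg_union_ge p (T := Lo) (A := W \ Lo) disjoint_sdiff
  rw [union_sdiff_of_subset hLo] at hge
  have : ∑ _v ∈ W \ Lo, hi ≤ ∑ v ∈ W \ Lo, dg p Lo v := by
    refine sum_le_sum fun y hy => ?_
    rw [mem_sdiff] at hy
    by_cases hp : p u = p y
    · rw [← dg_congr p Lo hp]; omega
    by_cases hs : ∀ x ∈ Lo, p x ≠ p y
    · have := dg_full p hs; have := dg_lt p hu; omega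
    push Not at hs
    obtain ⟨x, hx, hxy⟩ := hs
    have b1 := dg_add p Lo u
    have b2 := dg_add p Lo y
    have b3 := dg_add p W u
    have b4 := dg_add p W y
    have b5 := h2 u hu y hy.1 hy.2
    have b6 : (W.filter fun v => p v = p u).card ≤ (Lo.filter fun v => p v = p u).card := by
      refine card_le_card fun v hv => ?_
      rw [mem_filter] at hv ⊢
      refine ⟨?_, hv.2⟩
      by_contra hvL
      exact hp ((h1 u hu v hv.1 hvL hv.2.symm x hx y hy.1 hy.2 hxy).trans hxy)
    have b7 : (Lo.filter fun v => p v = p y).card ≤ (W.filter fun v => p v = p y).card :=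
      card_le_card (filter_subset_filter _ hLo)
    omega
  rw [sum_const, smul_eq_mul] at this
  omega

lemma cond_one' {W Lo : Finset V} {s q r : ℕ} (hLo : Lo ⊆ W)
    (h2 : ∀ x ∈ Lo, ∀ y ∈ W, y ∉ Lo → dg p W x ≤ dg p W y) (hq : 1 ≤ q)
    (hr : (W \ Lo).card = r + 1) (hE : s * (q * W.card + r) ≤ eg p W) (y : V) (hy : y ∈ W) (hyL : y ∉ Lo)
    (hsm : (W.filter fun v => p v = p y).card < 2 * s) : s * (q + 1) ≤ dg p W y := by
  by_contra hc
  have b1 := dg_add p W y
  set N := W.card
  set c := (W.filter fun v => p v = p y).card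
  set D := dg p W y
  have hrN : r ≤ N := by have : (W \ Lo).card ≤ N := card_le_card sdiff_subset; omega
  have hN : 0 < N := card_pos.2 ⟨y, hy⟩
  have b2 : 2 * eg p W ≤ N * D + r * c := by
    rw [two_eg]
    have hI : insert y Lo ⊆ W := insert_subset hy hLo
    have : ∑ v ∈ W, dg p W v ≤ ∑ v ∈ W, (if v ∈ insert y Lo then D else D + c) := by
      refine sum_le_sum fun v hv => ?_
      split_ifs with h
      · rcases mem_insert.1 h with rfl | h
        · exact le_rfl
        · exact h2 v h y hy hyL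
      · have := dg_lt p hv; omega
    rw [sum_two W _ hI] at this
    have e0 := card_le_card hI
    have e1 : (W \ insert y Lo).card = r := by
      rw [card_sdiff_of_subset hLo] at hr
      rw [card_sdiff_of_subset hI, card_insert_of_notMem hyL]; omega
    have e : (insert y Lo).card + r = N := by rw [← e1, card_sdiff_of_subset hI]; omega
    rw [e1] at this
    calc _ ≤ _ := this
      _ = N * D + r * c := by rw [← e]; ring
  obtain ⟨q', rfl⟩ : ∃ q', q = q' + 1 := ⟨q - 1, by omega⟩
  obtain ⟨m, hm⟩ : ∃ m, N = r + m := ⟨N - r, by omega⟩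
  rcases le_or_gt c D with h | h
  · have f1 : r * c ≤ r * D := Nat.mul_le_mul_left _ h
    have f2 : (N + r) * (D + 1) ≤ (N + r) * (s * (q' + 1 + 1)) := Nat.mul_le_mul_left _ (by omega)
    have f3 : (N + r) * (s * (q' + 1 + 1)) + s * q' * m = 2 * (s * ((q' + 1) * N + r)) := by
      rw [hm]; ring
    nlinarith [Nat.zero_le (s * q' * m)]
  · have f1 : (c + 1) * (N + r) ≤ (2 * s) * (N + r) := Nat.mul_le_mul_right _ (by omega)
    have f2 : N * D ≤ N * c := Nat.mul_le_mul_left _ h.le
    have f3 : 2 * (s * ((q' + 1) * N + r)) = (2 * s) * (N + r) + 2 * s * q' * N := by ring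
    nlinarith [Nat.zero_le (2 * s * q' * N)]

lemma balC {W Lo : Finset V} {lo hi : ℕ} (hLo : Lo ⊆ W) (hle : lo ≤ hi) (h1 : OneSplit p W Lo)
    (h0 : eg p W ≤ Lo.card * lo + (W \ Lo).card * hi) (h2 : eg p Lo ≤ Lo.card * lo)
    (h3 : ∀ y ∈ W, y ∉ Lo → ∀ x ∈ Lo, p x = p y → hi ≤ dg p W y) :
    Cov p W (fun v => if v ∈ Lo then lo else hi) := by
  intro T hT
  have := balM p hLo hle h1 (sum_two W Lo hLo lo hi).le h0 (by omega) h3 T hT
  rw [← sum_two W Lo hLo, ← sum_sdiff hT] at this
  beta_reduce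
  omega

lemma stripC {W A : Finset V} {i : ι} {w w' : V → ℕ} (hA : ∀ a ∈ A, p a = i) (hd : Disjoint W A)
    (hF : Cov p W w') (h1 : ∀ v ∈ W, w' v + (if p v ≠ i then A.card else 0) ≤ w v) :
    Cov p (W ∪ A) w := by
  intro T hT
  have e1 : T = (T ∩ W) ∪ (T ∩ A) := by
    rw [← inter_union_distrib_left, inter_eq_left.2 hT]
  have d1 : Disjoint (T ∩ W) (T ∩ A) := hd.mono inter_subset_right inter_subset_right
  have e2 := eg_union_eq p d1 (fun a ha => hA a (mem_inter.1 ha).2)
  rw [← e1] at e2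
  have e4 := hF (T ∩ W) inter_subset_right
  have e5 : ∑ v ∈ T ∩ W, w v ≤ ∑ v ∈ T, w v := sum_le_sum_of_subset inter_subset_left
  have e6 : ∑ v ∈ T ∩ W, w' v + A.card * ((T ∩ W).filter fun u => p u ≠ i).card
      ≤ ∑ v ∈ T ∩ W, w v := by
    rw [card_filter, mul_sum, ← sum_add_distrib]
    refine sum_le_sum fun v hv => ?_
    have := h1 v (mem_inter.1 hv).2
    split_ifs at this ⊢ <;> omega
  have e8 : (T ∩ A).card * ((T ∩ W).filter fun u => p u ≠ i).card
      ≤ A.card * ((T ∩ W).filter fun u => p u ≠ i).card :=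
    Nat.mul_le_mul_right _ (card_le_card inter_subset_right)
  omega

lemma covAdd {W U : Finset V} {w : V → ℕ} (hF : Cov p W w)
    (h : ∀ v ∈ U, v ∉ W → dg p U v ≤ w v) : Cov p U w := by
  intro T hT
  have key : ∀ A : Finset V, A ⊆ T \ W → eg p (T ∩ W ∪ A) ≤ ∑ v ∈ T ∩ W ∪ A, w v := by
    intro A
    induction A using Finset.induction_on with
    | empty => intro _; simpa using hF (T ∩ W) inter_subset_right
    | insert a A ha ih =>
      intro hA
      have ha' := mem_sdiff.1 (hA (mem_insert_self _ _))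
      have h1 : a ∉ T ∩ W ∪ A := by simp [ha, ha'.2]
      have hA' := (subset_insert a A).trans hA
      rw [union_insert, eg_insert p h1, sum_insert h1]
      have := ih hA'
      have := h a (hT ha'.1) ha'.2
      have := dg_mono p (show T ∩ W ∪ A ⊆ U from
        union_subset (inter_subset_left.trans hT) ((hA'.trans sdiff_subset).trans hT)) a
      omega
  have := key _ subset_rfl
  rwa [union_comm, sdiff_union_inter] at this

lemma bigC {s : ℕ} (hs : 1 ≤ s) : ∀ (N : ℕ) (W : Finset V) (k : ℕ), W.card = N →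
    (∀ v ∈ W, s ≤ dg p W v) → eg p W ≤ s * k → (∃ i, (W.filter fun v => p v ≠ i).card ≤ k) →
    ∃ c : V → ℕ, ∑ v ∈ W, c v ≤ k ∧ Cov p W (fun v => s * c v) := by
  intro N
  induction N using Nat.strong_induction_on with
  | _ N ih =>
  intro W k hW hdeg hk ⟨i, hi⟩
  by_cases hbig : ∃ y ∈ W, 2 * s ≤ (W.filter fun v => p v = p y).card
  · obtain ⟨y, hy, hcard⟩ := hbig
    obtain ⟨A, hA, hAc⟩ := exists_subset_card_eq (s := W.filter fun v => p v = p y) (n := s)
      (by omega)
    have hAW : A ⊆ W := hA.trans (filter_subset _ _)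
    have hAp : ∀ a ∈ A, p a = p y := fun a ha => (mem_filter.1 (hA ha)).2
    have hU : (W \ A) ∪ A = W := sdiff_union_of_subset hAW
    have hD : Disjoint (W \ A) A := sdiff_disjoint
    set W' := W \ A with hW'
    set P' := W'.filter fun v => p v = p y with hP'
    have hP : s ≤ P'.card := by
      have : (W.filter fun v => p v = p y) ⊆ P' ∪ A := by
        intro v hv
        rw [mem_filter] at hv
        by_cases h : v ∈ A <;> simp [hP', hW', h, hv.1, hv.2]
      have := card_le_card this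
      have := card_union_le P' A
      omega
    set M := (W'.filter fun v => p v ≠ p y).card with hM
    have hE : eg p W = eg p W' + s * M := by
      have := eg_union_eq p hD hAp; rwa [hU, hAc] at this
    have hE' : s * M ≤ eg p W' := by
      have := eg_union_eq p (T := W'.filter fun v => p v ≠ p y) (A := P') (i := p y)
        (by rw [hP']; exact disjoint_filter.2 fun x _ h => h)
        (fun a ha => (mem_filter.1 ha).2)
      rw [union_comm, hP', filter_union_filter_not_eq, filter_filter] at this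
      simp only [and_self] at this
      have h2 : s * M ≤ P'.card * M := Nat.mul_le_mul_right _ hP
      rw [hP', hM] at h2
      rw [hM]
      omega
    have h2M : 2 * M ≤ k := by
      have h3 : s * (2 * M) ≤ s * k := by
        have : s * (2 * M) = s * M + s * M := by ring
        omega
      exact Nat.le_of_mul_le_mul_left h3 hs
    obtain ⟨k', rfl⟩ : ∃ k', k = k' + M := ⟨k - M, by omega⟩
    obtain ⟨c', hc1, hc2⟩ := ih W'.card (by
        have := card_le_card hAW
        rw [hW', card_sdiff_of_subset hAW]; omega) W' k' rfl (by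
        intro v hv
        by_cases h : p v = p y
        · have := dg_union_same p (T := W') (A := A) (v := v) (fun a ha => (hAp a ha).trans h.symm)
          rw [hU] at this; rw [← this]; exact hdeg v (mem_sdiff.1 hv).1
        · rw [dg_eq]
          refine hP.trans (card_le_card fun u hu => ?_)
          rw [hP', mem_filter] at hu
          rw [mem_filter]; exact ⟨hu.1, fun h' => h (h'.symm.trans hu.2)⟩)
        (by rw [mul_add] at hk; omega) ⟨p y, by omega⟩
    refine ⟨fun v => if v ∈ A then 0 else c' v + if p v ≠ p y then 1 else 0, ?_, ?_⟩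
    · nth_rewrite 1 [← hU]
      rw [sum_union hD, sum_eq_zero (s := A) (fun a ha => by simp [ha]), add_zero,
        sum_congr rfl (fun v hv => if_neg (mem_sdiff.1 hv).2), sum_add_distrib, ← card_filter, ← hW']
      omega
    · rw [← hU]
      refine stripC p hAp hD hc2 fun v hv => ?_
      have := (mem_sdiff.1 hv).2
      by_cases h : p v = p y <;> simp [this, h, hAc, mul_add]
  · push Not at hbig
    rcases Nat.eq_zero_or_pos N with h0 | hN
    · have : W = ∅ := card_eq_zero.1 (by omega)
      subst this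
      exact ⟨fun _ => 0, by simp, fun T hT => by simp [subset_empty.1 hT, eg]⟩
    have hadd := card_filter_add_card_filter_not (s := W) (fun v => p v = i)
    simp only [← ne_eq] at hadd
    obtain ⟨k0, hk0, hk1, hk2, hk3⟩ : ∃ k0, k0 ≤ k ∧ eg p W ≤ s * k0 ∧
        (W.filter fun v => p v ≠ i).card ≤ k0 ∧ (N < k0 → s * (k0 - 1) ≤ eg p W) := by
      classical
      have hex : ∃ k0, eg p W ≤ s * k0 ∧ (W.filter fun v => p v ≠ i).card ≤ k0 := ⟨k, hk, hi⟩
      refine ⟨Nat.find hex, Nat.find_min' hex ⟨hk, hi⟩, (Nat.find_spec hex).1,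
        (Nat.find_spec hex).2, fun h => ?_⟩
      have := Nat.find_min hex (m := Nat.find hex - 1) (by omega)
      by_contra hc
      exact this ⟨by omega, by omega⟩
    have hdm := Nat.div_add_mod k0 N
    have hr : k0 % N < N := Nat.mod_lt _ hN
    set q := k0 / N
    set r := k0 % N
    have fin : ∀ Lo ⊆ W, Lo.card = N - r → OneSplit p W Lo → eg p Lo ≤ Lo.card * (s * q) →
        (∀ y ∈ W, y ∉ Lo → s * (q + 1) ≤ dg p W y) →
        ∃ c : V → ℕ, ∑ v ∈ W, c v ≤ k ∧ Cov p W (fun v => s * c v) := by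
      intro Lo hLo hc h1 h2 h3
      have hcr : (W \ Lo).card = r := by rw [card_sdiff_of_subset hLo]; omega
      obtain ⟨m, hm⟩ : ∃ m, N = r + m := ⟨N - r, by omega⟩
      have hm' : Lo.card = m := by omega
      have hsum : Lo.card * q + (W \ Lo).card * (q + 1) = k0 := by
        rw [hcr, hm', ← hdm, hm]; ring
      refine ⟨fun v => if v ∈ Lo then q else q + 1, by rw [sum_two W Lo hLo, hsum]; exact hk0, ?_⟩
      have := balC p (lo := s * q) (hi := s * (q + 1)) hLo (Nat.mul_le_mul_left _ (by omega)) h1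
        (by refine hk1.trans (le_of_eq ?_); rw [← hsum]; ring) h2
        (fun y hy hyL _ _ _ => h3 y hy hyL)
      simpa only [mul_ite] using this
    rcases Nat.eq_zero_or_pos q with hq | hq
    · have hkr : k0 = r := by rw [← hdm, hq]; simp
      obtain ⟨Lo, hLo, hLc⟩ := exists_subset_card_eq (s := W.filter fun v => p v = i)
        (n := N - r) (by omega)
      have hLp : ∀ a ∈ Lo, p a = i := fun a ha => (mem_filter.1 (hLo ha)).2
      have hLW : Lo ⊆ W := hLo.trans (filter_subset _ _)
      refine fin Lo hLW hLc (fun x hx _ _ _ _ x' hx' _ _ _ _ => (hLp x hx).trans (hLp x' hx').symm)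
        ?_ (fun y hy _ => by rw [hq]; simpa using hdeg y hy)
      have h0 := eg_union_eq p (T := ∅) (A := Lo) (by simp) hLp
      simp only [empty_union, filter_empty, card_empty, mul_zero, add_zero] at h0
      have h00 : eg p (∅ : Finset V) = 0 := by simp [eg]
      omega
    · obtain ⟨Lo, hLo, hLc, h1, h2⟩ := greedy p W (N - r) (by omega)
      have hcr : (W \ Lo).card = r := by rw [card_sdiff_of_subset hLo]; omega
      obtain ⟨m, hm⟩ : ∃ m, N = r + m := ⟨N - r, by omega⟩
      have hm' : Lo.card = m := by omega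
      refine fin Lo hLo hLc h1 ?_ fun y hy hyL => ?_
      · by_contra hc
        have := cond_two' p (a := s * q) (hi := s * (q + 1)) hLo h1 h2 (by nlinarith) (not_le.1 hc)
        have e : s * k0 = Lo.card * (s * q) + (W \ Lo).card * (s * (q + 1)) := by
          rw [hcr, hm', ← hdm, hm]; ring
        omega
      · have hr0 : 0 < r := hcr ▸ card_pos.2 ⟨y, mem_sdiff.2 ⟨hy, hyL⟩⟩
        have hNq : N ≤ N * q := Nat.le_mul_of_pos_right _ hq
        refine cond_one' p (r := r - 1) hLo h2 hq (by omega) ?_ y hy hyL (hbig y hy)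
        refine le_trans (le_of_eq ?_) (hk3 (by omega))
        rw [hW, mul_comm q N]; congr 1; omega

end Pool.Agent.Lib.MP_b31404_co
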