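import Pool.Agent.Lib.MP_b31404_co.Defs

namespace Pool.Agent.Lib.MP_b31404_co

/-- The edges of `G` are covered by `k` stars `K_{1,s}` of `G` (overlaps allowed): star `j` has
centre `c j` and the `s` leaves `L j`, all adjacent to the centre, and every edge of `G` is an
edge of some star. -/
def CoveredByStars {V : Type} (G : SimpleGraph V) (s k : ℕ) : Prop :=
  ∃ (c : Fin k → V) (L : Fin k → Finset V),
    (∀ j, (L j).card = s ∧ ∀ x ∈ L j, G.Adj (c j) x) ∧
    ∀ u v, G.Adj u v → ∃ j, ∃ x ∈ L j, s(c j, x) = s(u, v)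

end Pool.Agent.Lib.MP_b31404_co
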