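import Pool.Agent.Lib.MP_b31404_co.Core
import Pool.Agent.Lib.MP_b31404_co.Defs

namespace Pool.Agent.Lib.MP_b31404_co
open Finset

variable {V ι : Type} [DecidableEq V] [Fintype V] [LinearOrder ι] (p : V → ι)

def eP (T : Finset V) : Finset (V × V) := (T ×ˢ T).filter fun x => p x.1 < p x.2

omit [DecidableEq V] [Fintype V] in
lemma eP_card (T : Finset V) : (eP p T).card = eg p T := by
  unfold eP eg; rw [card_filter, sum_product]

omit [DecidableEq V] [Fintype V] in
lemma eP_mono {T T' : Finset V} (h : T ⊆ T') : eP p T ⊆ eP p T' :=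
  filter_subset_filter _ (product_subset_product h h)

omit [DecidableEq V] [Fintype V] in
lemma pair_eq {x y : V × V} (hx : p x.1 < p x.2) (hy : p y.1 < p y.2)
    (h : s(x.1, x.2) = s(y.1, y.2)) : x = y := by
  rcases Sym2.eq_iff.1 h with ⟨a, b⟩ | ⟨a, b⟩
  · exact Prod.ext a b
  · rw [a, b] at hx; exact absurd hx (not_lt_of_gt hy)

omit [DecidableEq V] [Fintype V] in
lemma HasStars.mono {G : SimpleGraph V} {s k k' : ℕ} (h : HasStars G s k) (hk : k' ≤ k) :
    HasStars G s k' := by
  obtain ⟨c, L, h1, h2⟩ := h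
  exact ⟨fun j => c (j.castLE hk), fun j => L (j.castLE hk), fun j => h1 _,
    fun j j' hj => h2 _ _ fun e => hj (Fin.castLE_injective hk e)⟩

lemma stars_of_feas {G : SimpleGraph V} (hG : ∀ u v, G.Adj u v ↔ p u ≠ p v) {s : ℕ} {c : V → ℕ}
    (hF : Feas p univ (fun v => s * c v)) : HasStars G s (∑ v, c v) := by
  classical
  let t : (Σ v : V, Fin (c v) × Fin s) → Finset (V × V) :=
    fun i => (eP p univ).filter fun x => x.1 = i.1 ∨ x.2 = i.1
  obtain ⟨f, hf, hft⟩ := (all_card_le_biUnion_card_iff_exists_injective t).1 (by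
    intro A
    set S := A.image Sigma.fst with hS
    have h1 : A.card ≤ ∑ v ∈ S, s * c v := by
      have : A ⊆ S.sigma fun _ => univ := fun i hi => by
        rw [mem_sigma]; exact ⟨mem_image_of_mem _ hi, mem_univ _⟩
      refine (card_le_card this).trans (le_of_eq ?_)
      rw [card_sigma]; exact sum_congr rfl fun v _ => by simp [mul_comm]
    have h2 := hF (univ \ S) (subset_univ _)
    rw [Finset.sdiff_sdiff_eq_self (subset_univ S)] at h2
    beta_reduce at h2
    have h3 : eP p univ \ eP p (univ \ S) ⊆ A.biUnion t := by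
      intro x hx
      rw [mem_sdiff] at hx
      have hlt : p x.1 < p x.2 := (mem_filter.1 hx.1).2
      have : x.1 ∈ S ∨ x.2 ∈ S := by
        by_contra hc
        push Not at hc
        exact hx.2 (by simp [eP, hc.1, hc.2, hlt])
      rw [mem_biUnion]
      rcases this with h | h <;> obtain ⟨i, hi, e⟩ := mem_image.1 h
      · exact ⟨i, hi, mem_filter.2 ⟨hx.1, Or.inl e.symm⟩⟩
      · exact ⟨i, hi, mem_filter.2 ⟨hx.1, Or.inr e.symm⟩⟩
    have h4 := card_le_card h3
    rw [card_sdiff_of_subset (eP_mono p (subset_univ _)), eP_card, eP_card] at h4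
    omega)
  let leaf : (Σ v : V, Fin (c v) × Fin s) → V := fun i => if (f i).1 = i.1 then (f i).2 else (f i).1
  have hlt : ∀ i, p (f i).1 < p (f i).2 := fun i => (mem_filter.1 (mem_filter.1 (hft i)).1).2
  have hor : ∀ i, (f i).1 = i.1 ∨ (f i).2 = i.1 := fun i => (mem_filter.1 (hft i)).2
  have hs : ∀ i, s(i.1, leaf i) = s((f i).1, (f i).2) := by
    intro i
    by_cases h : (f i).1 = i.1
    · simp only [leaf, if_pos h]; rw [h]
    · simp only [leaf, if_neg h]; rw [(hor i).resolve_left h, Sym2.eq_swap]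
  have hinj : ∀ i i', s(i.1, leaf i) = s(i'.1, leaf i') → i = i' := fun i i' h =>
    hf (pair_eq p (hlt i) (hlt i') (by rw [← hs, ← hs, h]))
  have hadj : ∀ i, G.Adj i.1 (leaf i) := by
    intro i
    rw [← G.mem_edgeSet, hs, G.mem_edgeSet, hG]; exact (hlt i).ne
  let g : Fin (∑ v, c v) ≃ (Σ v : V, Fin (c v)) := Fintype.equivOfCardEq (by simp)
  refine ⟨fun j => (g j).1, fun j => univ.image fun a : Fin s => leaf ⟨(g j).1, (g j).2, a⟩,
    fun j => ⟨?_, ?_⟩, ?_⟩
  · rw [card_image_of_injective _ fun a b hab => ?_]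
    · simp
    · have := hinj ⟨(g j).1, (g j).2, a⟩ ⟨(g j).1, (g j).2, b⟩ (by
        simp only at hab ⊢; rw [hab])
      simpa using this
  · intro x hx
    obtain ⟨a, -, rfl⟩ := mem_image.1 hx
    exact hadj ⟨(g j).1, (g j).2, a⟩
  · intro j j' hj x hx y hy he
    obtain ⟨a, -, rfl⟩ := mem_image.1 hx
    obtain ⟨b, -, rfl⟩ := mem_image.1 hy
    have := hinj ⟨(g j).1, (g j).2, a⟩ ⟨(g j').1, (g j').2, b⟩ he
    apply hj
    apply g.injective
    exact congrArg (fun i : (Σ v : V, Fin (c v) × Fin s) => (⟨i.1, i.2.1⟩ : Σ v : V, Fin (c v))) this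

lemma feas_of_stars {G : SimpleGraph V} (hG : ∀ u v, G.Adj u v ↔ p u ≠ p v) {s k : ℕ}
    (h : HasStars G s k) : ∃ c : V → ℕ, ∑ v, c v = k ∧ Feas p univ (fun v => s * c v) := by
  classical
  obtain ⟨cen, L, h1, h2⟩ := h
  refine ⟨fun v => (univ.filter fun j => cen j = v).card, ?_, ?_⟩
  · rw [← card_eq_sum_card_fiberwise (fun x _ => mem_univ (cen x))]; simp
  intro T hT
  set J := univ.filter fun j => cen j ∉ T with hJ
  have e1 : ∑ v ∈ univ \ T, s * (univ.filter fun j => cen j = v).card = s * J.card := by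
    rw [← mul_sum, card_eq_sum_card_fiberwise (s := J) (t := univ \ T) (f := cen)
      (fun x hx => by simpa [hJ] using hx)]
    congr 1
    refine sum_congr rfl fun v hv => ?_
    congr 1; ext j
    simp only [hJ, mem_filter, mem_univ, true_and]
    exact ⟨fun e => ⟨e ▸ (mem_sdiff.1 hv).2, e⟩, fun e => e.2⟩
  let g : (Σ _ : Fin k, V) → V × V :=
    fun i => if p (cen i.1) < p i.2 then (cen i.1, i.2) else (i.2, cen i.1)
  have hs : ∀ i, s((g i).1, (g i).2) = s(cen i.1, i.2) := by
    intro i; simp only [g]; split_ifs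
    · rfl
    · exact Sym2.eq_swap
  have e2 : (J.sigma L).card ≤ (eP p univ \ eP p T).card := by
    refine card_le_card_of_injOn g ?_ ?_
    · intro i hi
      rw [mem_coe, mem_sigma] at hi
      have hne : p (cen i.1) ≠ p i.2 := (hG _ _).1 ((h1 i.1).2 _ hi.2)
      have hn : cen i.1 ∉ T := by simpa [hJ] using hi.1
      rw [mem_coe, mem_sdiff]
      simp only [g]; split_ifs with h
      · simp [eP, h, hn]
      · simp [eP, hn, lt_of_le_of_ne (not_lt.1 h) hne.symm]
    · rintro ⟨j, x⟩ hi ⟨j', y⟩ hi' he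
      rw [mem_coe, mem_sigma] at hi hi'
      have := hs ⟨j, x⟩
      rw [he, hs] at this
      by_cases hj : j = j'
      · subst hj
        have : y = x := Sym2.congr_right.1 this
        rw [this]
      · exact absurd this.symm (h2 j j' hj x hi.2 y hi'.2)
  rw [card_sigma, sum_congr rfl (fun j _ => (h1 j).1), sum_const, smul_eq_mul,
    card_sdiff_of_subset (eP_mono p hT), eP_card, eP_card] at e2
  have := eg_mono p hT
  rw [e1, mul_comm]; omega

end Pool.Agent.Lib.MP_b31404_co
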