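import Pool.Agent.Lib.MP_b31404_co.CovCore
import Pool.Agent.Lib.MP_b31404_co.CovDefs
import Pool.Agent.Lib.MP_b31404_co.Hall

namespace Pool.Agent.Lib.MP_b31404_co
open Finset

variable {V ι : Type} [DecidableEq V] [Fintype V] [LinearOrder ι] (p : V → ι)

lemma cover_of_cov {G : SimpleGraph V} (hG : ∀ u v, G.Adj u v ↔ p u ≠ p v) {s : ℕ} {c : V → ℕ}
    (hF : Cov p univ (fun v => s * c v)) (hd : ∀ v, c v ≠ 0 → s ≤ dg p univ v) :
    CoveredByStars G s (∑ v, c v) := by
  classical
  let t : (eP p (univ : Finset V)) → Finset (Σ v : V, Fin (c v) × Fin s) :=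
    fun e => univ.filter fun i => i.1 = e.1.1 ∨ i.1 = e.1.2
  obtain ⟨f, hf, hft⟩ := (all_card_le_biUnion_card_iff_exists_injective t).1 (by
    intro A
    set S := A.image (fun e => e.1.1) ∪ A.image (fun e => e.1.2) with hS
    have h1 : A.card ≤ (eP p S).card := by
      refine card_le_card_of_injOn (fun e => e.1) (fun e he => ?_) (fun a _ b _ h => Subtype.ext h)
      have he' : e ∈ A := he
      rw [mem_coe, eP, mem_filter, mem_product]
      exact ⟨⟨mem_union_left _ (mem_image_of_mem _ he'), mem_union_right _ (mem_image_of_mem _ he')⟩,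
        (mem_filter.1 e.2).2⟩
    have h2 := hF S (subset_univ _)
    have h3 : (S.sigma fun _ => univ) ⊆ A.biUnion t := by
      intro i hi
      rw [mem_biUnion]
      rcases mem_union.1 (mem_sigma.1 hi).1 with h | h <;> obtain ⟨e, he, h⟩ := mem_image.1 h
      · exact ⟨e, he, mem_filter.2 ⟨mem_univ _, Or.inl h.symm⟩⟩
      · exact ⟨e, he, mem_filter.2 ⟨mem_univ _, Or.inr h.symm⟩⟩
    have h4 := card_le_card h3
    rw [card_sigma, sum_congr rfl (g := fun v => s * c v) fun v _ => by simp [mul_comm]] at h4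
    rw [eP_card] at h1
    exact h1.trans (h2.trans h4))
  have hor : ∀ e, (f e).1 = e.1.1 ∨ (f e).1 = e.1.2 := fun e => (mem_filter.1 (hft e)).2
  have hlt : ∀ e : eP p (univ : Finset V), p e.1.1 < p e.1.2 := fun e => (mem_filter.1 e.2).2
  let leaf : (eP p (univ : Finset V)) → V := fun e => if (f e).1 = e.1.1 then e.1.2 else e.1.1
  have hs : ∀ e, s((f e).1, leaf e) = s(e.1.1, e.1.2) := by
    intro e
    by_cases h : (f e).1 = e.1.1
    · simp only [leaf, if_pos h]; rw [h]
    · simp only [leaf, if_neg h]; rw [(hor e).resolve_left h, Sym2.eq_swap]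
  have hadj : ∀ e, G.Adj (f e).1 (leaf e) := by
    intro e
    rw [← G.mem_edgeSet, hs, G.mem_edgeSet, hG]; exact (hlt e).ne
  let st : (Σ v : V, Fin (c v) × Fin s) → (Σ v : V, Fin (c v)) := fun i => ⟨i.1, i.2.1⟩
  have aux : ∀ x y : (Σ v : V, Fin (c v) × Fin s), st x = st y → x.2.2 = y.2.2 → x = y := by
    rintro ⟨x1, x2, x3⟩ ⟨y1, y2, y3⟩ h1 h
    change (⟨x1, x2⟩ : Σ v : V, Fin (c v)) = ⟨y1, y2⟩ at h1
    change x3 = y3 at h
    cases h1; cases h; rfl
  have key : ∀ j : (Σ v : V, Fin (c v)), ∃ L : Finset V, L.card = s ∧ (∀ x ∈ L, G.Adj j.1 x) ∧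
      ∀ e, st (f e) = j → leaf e ∈ L := by
    intro j
    set E := univ.filter fun e => st (f e) = j with hE
    have h1 : E.card ≤ s := by
      have : E.card ≤ (univ : Finset (Fin s)).card := by
        refine card_le_card_of_injOn (fun e => (f e).2.2) (fun _ _ => by simp) ?_
        intro a ha b hb h
        exact hf (aux _ _ (((mem_filter.1 ha).2).trans ((mem_filter.1 hb).2).symm) h)
      simpa using this
    have h2 : E.image leaf ⊆ univ.filter fun u => p u ≠ p j.1 := by
      intro x hx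
      obtain ⟨e, he, rfl⟩ := mem_image.1 hx
      have := (hG _ _).1 (hadj e)
      rw [← (mem_filter.1 he).2]
      exact mem_filter.2 ⟨mem_univ _, this.symm⟩
    obtain ⟨L, l1, l2, l3⟩ := exists_subsuperset_card_eq (n := s) h2 (card_image_le.trans h1) (by
      rw [← dg_eq]; exact hd _ (by have := j.2.2; omega))
    exact ⟨L, l3, fun x hx => (hG _ _).2 (mem_filter.1 (l2 hx)).2.symm,
      fun e he => l1 (mem_image_of_mem _ (mem_filter.2 ⟨mem_univ _, he⟩))⟩
  choose L L1 L2 L3 using key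
  let g : Fin (∑ v, c v) ≃ (Σ v : V, Fin (c v)) := Fintype.equivOfCardEq (by simp)
  refine ⟨fun j => (g j).1, fun j => L (g j), fun j => ⟨L1 _, L2 _⟩, ?_⟩
  have main : ∀ u v, p u < p v → ∃ j, ∃ x ∈ L (g j), s((g j).1, x) = s(u, v) := by
    intro u v h
    let e : eP p (univ : Finset V) := ⟨(u, v), by simp [eP, h]⟩
    refine ⟨g.symm (st (f e)), leaf e, L3 _ e (g.apply_symm_apply _).symm, ?_⟩
    rw [g.apply_symm_apply]; exact hs e
  intro u v h
  rcases lt_or_gt_of_ne ((hG u v).1 h) with h | h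
  · exact main u v h
  · rw [Sym2.eq_swap]; exact main v u h

lemma cover_of_cov_le {G : SimpleGraph V} (hG : ∀ u v, G.Adj u v ↔ p u ≠ p v) {s k : ℕ}
    {c : V → ℕ} (hF : Cov p univ (fun v => s * c v)) (hd : ∀ v, c v ≠ 0 → s ≤ dg p univ v)
    (hk : ∑ v, c v ≤ k) (v0 : V) (h0 : s ≤ dg p univ v0) : CoveredByStars G s k := by
  obtain ⟨δ, rfl⟩ := Nat.exists_eq_add_of_le hk
  have := cover_of_cov p hG (s := s) (c := fun v => c v + if v = v0 then δ else 0)
    (fun T hT => (hF T hT).trans (sum_le_sum fun v _ => Nat.mul_le_mul_left _ (Nat.le_add_right _ _)))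
    (fun v hv => by
      by_cases h : v = v0
      · rw [h]; exact h0
      · exact hd v (by simpa [h] using hv))
  simpa [sum_add_distrib] using this

lemma cov_of_cover {G : SimpleGraph V} (hG : ∀ u v, G.Adj u v ↔ p u ≠ p v) {s k : ℕ}
    (h : CoveredByStars G s k) : ∃ c : V → ℕ, ∑ v, c v = k ∧ Cov p univ (fun v => s * c v) ∧
      ∀ v, c v ≠ 0 → s ≤ dg p univ v := by
  classical
  obtain ⟨cen, L, h1, h2⟩ := h
  refine ⟨fun v => (univ.filter fun j => cen j = v).card, ?_, ?_, ?_⟩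
  · rw [← card_eq_sum_card_fiberwise (fun x _ => mem_univ (cen x))]; simp
  · intro T _
    set J := univ.filter fun j => cen j ∈ T with hJ
    have e1 : ∑ v ∈ T, s * (univ.filter fun j => cen j = v).card = s * J.card := by
      rw [← mul_sum, card_eq_sum_card_fiberwise (s := J) (t := T) (f := cen)
        (fun x hx => by simpa [hJ] using hx)]
      congr 1
      refine sum_congr rfl fun v hv => ?_
      congr 1; ext j
      simp only [hJ, mem_filter, mem_univ, true_and]
      exact ⟨fun e => ⟨e ▸ hv, e⟩, fun e => e.2⟩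
    let g : (Σ _ : Fin k, V) → V × V :=
      fun i => if p (cen i.1) < p i.2 then (cen i.1, i.2) else (i.2, cen i.1)
    have e2 : eP p T ⊆ (J.sigma L).image g := by
      rintro ⟨u, v⟩ hx
      simp only [eP, mem_filter, mem_product] at hx
      obtain ⟨j, x, hxL, e⟩ := h2 u v ((hG _ _).2 hx.2.ne)
      rw [mem_image]
      rcases Sym2.eq_iff.1 e with ⟨a, b⟩ | ⟨a, b⟩
      · exact ⟨⟨j, x⟩, mem_sigma.2 ⟨by simp [hJ, a, hx.1.1], hxL⟩, by simp [g, a, b, hx.2]⟩
      · exact ⟨⟨j, x⟩, mem_sigma.2 ⟨by simp [hJ, a, hx.1.2], hxL⟩,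
          by simp [g, a, b, not_lt_of_gt hx.2]⟩
    have e3 := (card_le_card e2).trans card_image_le
    rw [card_sigma, sum_congr rfl (fun j _ => (h1 j).1), sum_const, smul_eq_mul, eP_card] at e3
    beta_reduce
    rw [e1, mul_comm]; exact e3
  · intro v hv
    obtain ⟨j, hj⟩ := card_pos.1 (Nat.pos_of_ne_zero hv)
    rw [dg_eq, ← (h1 j).1, ← (mem_filter.1 hj).2]
    exact card_le_card fun x hx => mem_filter.2 ⟨mem_univ _, ((hG _ _).1 ((h1 j).2 x hx)).symm⟩

end Pool.Agent.Lib.MP_b31404_co
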