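import Pool.Agent.Lib.MP_b31404_co.Big
import Pool.Agent.Lib.MP_b31404_co.Hall
import Pool.Agent.Lib.MP_b31404_co.Conc

namespace Pool.Agent.Lib.MP_b31404_co
open Finset

variable {r : ℕ} (n : Fin (r + 1) → ℕ)

lemma adj_iff (u v : VV n) :
    (SimpleGraph.completeMultipartiteGraph fun i => Fin (n i)).Adj u v ↔ u.1 ≠ v.1 := by
  simp [SimpleGraph.completeMultipartiteGraph]

lemma card_univ' : (univ : Finset (VV n)).card = ∑ i, n i := by
  simpa only [cnt_univ] using card_cnt n univ

lemma eg_univ : eg Sigma.fst (univ : Finset (VV n)) = ∑ j, ∑ i ∈ Iio j, n i * n j := by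
  simp only [eg_cnt, cnt_univ]

lemma n0_le : n 0 ≤ ∑ i, n i := single_le_sum (fun _ _ => Nat.zero_le _) (mem_univ _)

lemma card_inner : (univ.filter fun v : VV n => v.1 ≠ 0).card = (∑ i, n i) - n 0 := by
  have h := card_filter_add_card_filter_not (s := (univ : Finset (VV n))) (fun v => v.1 = 0)
  have h2 := cnt_univ n 0
  unfold cnt at h2
  rw [h2, card_univ'] at h
  simp only [← ne_eq] at h
  omega

lemma case_one (hn : Antitone n) {s k : ℕ} (hs : 1 ≤ s) (h : s ≤ (∑ i, n i) - n 0) :
    HasStars (SimpleGraph.completeMultipartiteGraph fun i => Fin (n i)) s k ↔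
      s * k + edgesOn n ((∑ i, n i) - k) ≤ ∑ j, ∑ i ∈ Iio j, n i * n j := by
  have hdeg : ∀ v : VV n, s ≤ dg Sigma.fst univ v := fun v => by
    rw [dg_univ]; have := hn (Fin.zero_le v.1); omega
  have hn0 := n0_le n
  rw [← eg_univ]
  constructor
  · intro hS
    obtain ⟨c, hc, hF⟩ := feas_of_stars Sigma.fst (adj_iff n) hS
    set Z := univ.filter fun v => c v = 0 with hZ
    have h1 := hF Z (subset_univ _)
    have h2 : ∑ v ∈ univ \ Z, c v = k := by
      rw [← hc]; exact sum_subset (subset_univ _) fun x _ hx => by simpa [hZ] using hx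
    have h3 : (univ \ Z).card ≤ k := by
      rw [← h2, card_eq_sum_ones]
      exact sum_le_sum fun v hv => Nat.pos_of_ne_zero (by simpa [hZ] using hv)
    rw [card_sdiff_of_subset (subset_univ _), card_univ'] at h3
    obtain ⟨T, hT, hTc⟩ := exists_subset_card_eq (s := Z) (n := (∑ i, n i) - k) (by omega)
    have h4 := edgesOn_le n hn T
    have h5 := eg_mono Sigma.fst hT
    beta_reduce at h1
    rw [← mul_sum, h2] at h1
    rw [hTc] at h4; omega
  · intro hE
    rcases le_total k ((∑ i, n i) - n 0) with hk | hk
    · have hc := card_low n (t := (∑ i, n i) - k) (by omega)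
      set Lo := low n ((∑ i, n i) - k) with hLo
      have hcr : (univ \ Lo).card = k := by
        rw [card_sdiff_of_subset (subset_univ _), card_univ', hc]; omega
      have := bal Sigma.fst (W := univ) (Lo := Lo) (lo := 0) (hi := s) (subset_univ _)
        (Nat.zero_le _) (low_split n _ _ _ (fun _ _ => Iff.rfl) (subset_univ _))
        (by rw [sum_two _ _ (subset_univ _), hcr, mul_comm k]; omega)
        (by rw [hcr, hLo, eg_low, mul_comm k]; omega) (fun y _ _ _ _ _ => hdeg y)
      have h2 := stars_of_feas Sigma.fst (adj_iff n) (s := s) (c := fun v => if v ∈ Lo then 0 else 1)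
        (by simpa only [mul_ite, mul_zero, mul_one] using this)
      rw [sum_two _ _ (subset_univ _), hcr] at h2
      simpa using h2
    · obtain ⟨c, hc, hF⟩ := big Sigma.fst hs _ (univ : Finset (VV n)) rfl (fun v _ => hdeg v)
        ⟨0, by
          have h0 := card_inner n
          have := Nat.mul_le_mul_left s hk
          calc _ = s * ((∑ i, n i) - n 0) := by rw [← h0]
            _ ≤ _ := by omega⟩
      refine (stars_of_feas Sigma.fst (adj_iff n) hF).mono ?_
      rw [hc, Nat.le_div_iff_mul_le hs, mul_comm]; omega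

lemma case_two (hn : Antitone n) {s k : ℕ} (h : (∑ i, n i) - n 0 < s) :
    HasStars (SimpleGraph.completeMultipartiteGraph fun i => Fin (n i)) s k ↔
      ((n 0 / s + 1) * s * (k - n 0 / s * ((∑ i, n i) - n 0))
          + edgesOn n ((∑ i, n i) - (k - n 0 / s * ((∑ i, n i) - n 0)))
        ≤ ∑ j, ∑ i ∈ Iio j, n i * n j ∧
      k - n 0 / s * ((∑ i, n i) - n 0)
        ≤ ∑ i ∈ univ.filter fun i => (n 0 / s + 1) * s ≤ (∑ i, n i) - n i, n i) := by
  have hn0 := n0_le n
  have hs : 0 < s := by omega
  have hdm := Nat.div_add_mod (n 0) s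
  have hml := Nat.mod_lt (n 0) hs
  have hin := card_inner n
  rw [← eg_univ]
  have hD : (∑ i ∈ univ.filter fun i => (n 0 / s + 1) * s ≤ (∑ i, n i) - n i, n i)
      = (univ.filter fun v : VV n => (n 0 / s + 1) * s ≤ dg Sigma.fst univ v).card := by
    simp only [dg_univ]
    rw [card_filter, sum_fib n univ fun i => if (n 0 / s + 1) * s ≤ (∑ i, n i) - n i then 1 else 0,
      sum_filter]
    exact sum_congr rfl fun i _ => by rw [cnt_univ]; split_ifs <;> simp
  rw [hD]
  have hdu := dg_univ n
  have hcu := card_univ' n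
  set N := ∑ i, n i with hN
  set q := n 0 / s with hq
  set S := (q + 1) * s with hS
  set z := k - q * (N - n 0) with hz
  have hS' : S = s * q + s := by rw [hS]; ring
  set W := univ.filter fun v : VV n => v.1 ≠ 0 with hW
  constructor
  · intro hSt
    obtain ⟨c, hc, hF⟩ := feas_of_stars Sigma.fst (adj_iff n) hSt
    have hcap : ∀ v, s * c v ≤ dg Sigma.fst univ v := by
      intro v
      have h1 := hF (univ.erase v) (subset_univ _)
      have h2 := eg_insert Sigma.fst (T := univ.erase v) (v := v) (by simp)
      have h3 := dg_mono Sigma.fst (erase_subset v univ) v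
      rw [insert_erase (mem_univ v)] at h2
      rw [show univ \ univ.erase v = {v} by ext x; simp, sum_singleton] at h1
      omega
    set Z := univ.filter fun v => q + 1 ≤ c v with hZ
    have hzZ : z ≤ Z.card := by
      have : k ≤ ∑ v : VV n, ((if v.1 ≠ 0 then q else 0) + if q + 1 ≤ c v then 1 else 0) := by
        rw [← hc]
        refine sum_le_sum fun v _ => ?_
        have h1 := hcap v
        rw [hdu] at h1
        by_cases h0 : v.1 = 0
        · have : c v = 0 := by
            by_contra hc0
            have := Nat.mul_le_mul_left s (Nat.pos_of_ne_zero hc0)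
            rw [h0] at h1; omega
          omega
        · have : c v < q + 2 := by
            by_contra hc0
            have := Nat.mul_le_mul_left s (not_lt.1 hc0)
            rw [mul_add] at this; omega
          rw [if_pos h0]; split_ifs <;> omega
      rw [sum_add_distrib, ← card_filter, ← sum_filter, sum_const, smul_eq_mul, ← hW, hin,
        mul_comm, ← hZ] at this
      omega
    have hw : ∀ v ∈ Z, S ≤ s * c v := fun v hv => by
      rw [hS, mul_comm]; exact Nat.mul_le_mul_left _ (mem_filter.1 hv).2
    refine ⟨?_, hzZ.trans (card_le_card fun v hv => ?_)⟩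
    · obtain ⟨Z0, hZ0, hZc⟩ := exists_subset_card_eq hzZ
      have h1 := hF (univ \ Z0) (subset_univ _)
      have h4 := edgesOn_le n hn (univ \ Z0)
      rw [card_sdiff_of_subset (subset_univ _), hcu, hZc] at h4
      rw [Finset.sdiff_sdiff_eq_self (subset_univ _)] at h1
      have h5 : ∑ _v ∈ Z0, S ≤ ∑ v ∈ Z0, s * c v := sum_le_sum fun v hv => hw v (hZ0 hv)
      rw [sum_const, smul_eq_mul, hZc, mul_comm] at h5
      beta_reduce at h1
      omega
    · exact mem_filter.2 ⟨mem_univ _, (hw v hv).trans (hcap v)⟩
  · rintro ⟨hE, hzD⟩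
    set D := univ.filter fun v : VV n => S ≤ dg Sigma.fst univ v with hDd
    have hDW : D ⊆ W := fun v hv => by
      have := (mem_filter.1 hv).2
      rw [hdu] at this
      refine mem_filter.2 ⟨mem_univ _, fun h0 => ?_⟩
      rw [h0] at this; omega
    have hzN : z ≤ N - n 0 := hzD.trans (hin ▸ card_le_card hDW)
    have hc := card_low n (t := N - z) (by omega)
    have hel := eg_low n (N - z)
    set Lo := low n (N - z) with hLo
    set A := univ.filter fun v : VV n => v.1 = 0 with hA
    have hAc : A.card = n 0 := cnt_univ n 0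
    have hAp : ∀ a ∈ A, a.1 = 0 := fun a ha => (mem_filter.1 ha).2
    have hWp : ∀ a ∈ W, a.1 ≠ 0 := fun a ha => (mem_filter.1 ha).2
    have hWA : Disjoint W A := disjoint_left.2 fun a h1 h2 => hWp a h1 (hAp a h2)
    have hU : W ∪ A = univ := by ext x; by_cases hx : x.1 = 0 <;> simp [hW, hA, hx]
    have hAL : A ⊆ Lo := fun a ha => by
      have h0 := hAp a ha
      obtain ⟨i, b⟩ := a
      simp only at h0; subst h0
      simp only [hLo, low, mem_filter, mem_univ, true_and, sum_Iio']
      have := b.2
      simp; omega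
    have hhigh : ∀ y, y ∉ Lo → S ≤ dg Sigma.fst univ y := by
      intro y hy
      by_contra hc'
      have : insert y Lo ⊆ univ \ D := fun x hx => by
        rw [mem_sdiff, hDd, mem_filter]
        refine ⟨mem_univ _, fun hx' => hc' ?_⟩
        rcases mem_insert.1 hx with rfl | hx
        · exact hx'.2
        · have h1 : x.1 ≤ y.1 := not_lt.1 fun hlt => hy (low_lt n hx hlt)
          have := hn h1
          have h2 := hx'.2
          rw [hdu] at h2 ⊢; omega
      have h2 := card_le_card this
      have h3 := card_le_card (subset_univ D)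
      rw [card_insert_of_notMem hy, card_sdiff_of_subset (subset_univ _), hc, hcu] at h2
      rw [hcu] at h3
      omega
    set L := Lo ∩ W with hL
    have hLW : L ⊆ W := inter_subset_right
    have hLA : L ∪ A = Lo := by
      ext x; simp only [hL, mem_union, mem_inter]
      constructor
      · rintro (h1 | h1); exacts [h1.1, hAL h1]
      · intro h1; have := hU ▸ mem_univ x; rw [mem_union] at this; tauto
    have hLc : L.card + n 0 = N - z := by
      rw [← hc, ← hLA, card_union_of_disjoint (hWA.mono_left hLW), hAc]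
    have hcr : (W \ L).card = z := by rw [card_sdiff_of_subset hLW]; omega
    have e1 := eg_union_eq Sigma.fst hWA hAp
    have e2 := eg_union_eq Sigma.fst (hWA.mono_left hLW) hAp
    rw [hU, filter_true_of_mem hWp, hAc, hin] at e1
    rw [hLA, filter_true_of_mem fun a ha => hWp a (hLW ha), hAc] at e2
    obtain ⟨s', hs'⟩ : ∃ s', S = n 0 + s' := ⟨S - n 0, by omega⟩
    have e3 : n 0 * (N - n 0) = n 0 * L.card + n 0 * z := by rw [← mul_add]; congr 1; omega
    have e4 : S * z = n 0 * z + z * s' := by rw [hs']; ring
    have hb := bal Sigma.fst (W := W) (Lo := L) (lo := 0) (hi := s') hLW (Nat.zero_le _)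
      (low_split n (N - z) _ _ (fun v hv => by simp [hL, hv, hLo]) hLW)
      (by rw [sum_two _ _ hLW, hcr]; omega) (by rw [hcr]; omega) (fun y hy hyL _ _ _ => by
        have h1 := hhigh y fun h' => hyL (mem_inter.2 ⟨h', hy⟩)
        have h2 : dg Sigma.fst (W ∪ A) y = dg Sigma.fst W y + dg Sigma.fst A y := sum_union hWA
        have h3 : dg Sigma.fst A y = A.card :=
          dg_full Sigma.fst fun a ha e => hWp y hy (e ▸ hAp a ha)
        rw [hU] at h2; omega)
    have hst := strip Sigma.fst (w := fun v => s * (if v ∈ A then 0 else if v ∈ L then q else q + 1))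
      hWA hAp hb (fun a ha => by simp [ha]) (fun v hv => by
        rw [if_neg (disjoint_left.1 hWA hv), if_pos (hWp v hv), hAc]
        split_ifs
        · omega
        · rw [mul_add]; omega)
    rw [hU] at hst
    refine (stars_of_feas Sigma.fst (adj_iff n) hst).mono ?_
    rw [← hU, sum_union hWA, sum_eq_zero (s := A) (fun a ha => by simp [ha]), add_zero,
      sum_congr rfl (fun v hv => if_neg (disjoint_left.1 hWA hv)), sum_two _ _ hLW, hcr]
    have e5 : q * (N - n 0) = L.card * q + z * q := by rw [← add_mul, mul_comm]; congr 1; omega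
    rw [mul_add]; omega

end Pool.Agent.Lib.MP_b31404_co
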