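import Pool.Agent.Lib.MP_b31404_co.CovHall
import Pool.Agent.Lib.MP_b31404_co.Main

namespace Pool.Agent.Lib.MP_b31404_co
open Finset

variable {r : ℕ} (n : Fin (r + 2) → ℕ)

lemma cover_one (hn : Antitone n) (hp : ∀ i, 0 < n i) {s k : ℕ} (hs : 1 ≤ s)
    (h : s ≤ (∑ i, n i) - n 0) :
    CoveredByStars (SimpleGraph.completeMultipartiteGraph fun i => Fin (n i)) s k ↔
      ((∑ i, n i) - n 0 ≤ k ∧ ∑ j, ∑ i ∈ Iio j, n i * n j ≤ s * k) := by
  have hdeg : ∀ v : VV n, s ≤ dg Sigma.fst univ v := fun v => by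
    rw [dg_univ]; have := hn (Fin.zero_le v.1); omega
  rw [← eg_univ]
  constructor
  · intro hS
    obtain ⟨c, hc, hF, -⟩ := cov_of_cover Sigma.fst (adj_iff n) hS
    refine ⟨?_, by have := hF univ subset_rfl; beta_reduce at this; rwa [← mul_sum, hc] at this⟩
    set Z := univ.filter fun v => c v = 0 with hZ
    have h2 : ∑ v ∈ univ \ Z, c v = k := by
      rw [← hc]; exact sum_subset (subset_univ _) fun x _ hx => by simpa [hZ] using hx
    have h3 : (univ \ Z).card ≤ k := by
      rw [← h2, card_eq_sum_ones]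
      exact sum_le_sum fun v hv => Nat.pos_of_ne_zero (by simpa [hZ] using hv)
    have hcu : (univ : Finset (VV n)).card = ∑ i, n i := card_univ' n
    rw [card_sdiff_of_subset (subset_univ _), hcu] at h3
    have h4 : Z.card ≤ n 0 := by
      rcases Z.eq_empty_or_nonempty with h0 | ⟨x, hx⟩
      · simp [h0]
      have h5 := hF Z (subset_univ _)
      rw [sum_eq_zero fun v hv => by simp [(mem_filter.1 hv).2]] at h5
      have h6 := two_eg Sigma.fst Z
      have h7 : dg Sigma.fst Z x ≤ ∑ v ∈ Z, dg Sigma.fst Z v :=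
        single_le_sum (fun _ _ => Nat.zero_le _) hx
      have h8 : dg Sigma.fst Z x = 0 := by omega
      rw [dg_eq, card_eq_zero, filter_eq_empty_iff] at h8
      have h9 : Z.card ≤ cnt n Z x.1 :=
        card_le_card fun y hy => mem_filter.2 ⟨hy, not_not.1 (h8 hy)⟩
      exact h9.trans ((cnt_le n Z x.1).trans (hn (Fin.zero_le _)))
    omega
  · rintro ⟨h1, h2⟩
    obtain ⟨c, hc, hF⟩ := bigC Sigma.fst hs _ (univ : Finset (VV n)) k rfl (fun v _ => hdeg v) h2
      ⟨0, by rw [← card_inner n] at h1; exact h1⟩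
    exact cover_of_cov_le Sigma.fst (adj_iff n) hF (fun v _ => hdeg v) hc ⟨0, ⟨0, hp 0⟩⟩ (hdeg _)

lemma cover_two (hn : Antitone n) (hp : ∀ i, 0 < n i) {s k Q : ℕ} (h : (∑ i, n i) - n 0 < s)
    (hQ : Q = (n 0 + s - 1) / s) :
    CoveredByStars (SimpleGraph.completeMultipartiteGraph fun i => Fin (n i)) s k ↔
      (s ≤ (∑ i, n i) - n 1 ∧ Q * ((∑ i, n i) - n 0) ≤ k ∧
        edgesOn n ((∑ i, n i) - (k - Q * ((∑ i, n i) - n 0)))
          ≤ s * Q * ((∑ i, n i) - n 0 - (k - Q * ((∑ i, n i) - n 0)))) := by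
  have hn0 := n0_le n
  have hs : 0 < s := by omega
  have hdm := Nat.div_add_mod (n 0 + s - 1) s
  have hml := Nat.mod_lt (n 0 + s - 1) hs
  rw [← hQ] at hdm
  have hp0 := hp 0
  have hin := card_inner n
  have hdu := dg_univ n
  have hcu := card_univ' n
  set N := ∑ i, n i with hN
  set z := k - Q * (N - n 0) with hz
  set W := univ.filter fun v : VV n => v.1 ≠ 0 with hW
  set A := univ.filter fun v : VV n => v.1 = 0 with hA
  have hAc : A.card = n 0 := cnt_univ n 0
  have hAp : ∀ a ∈ A, a.1 = 0 := fun a ha => (mem_filter.1 ha).2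
  have hWp : ∀ a ∈ W, a.1 ≠ 0 := fun a ha => (mem_filter.1 ha).2
  have hWA : Disjoint W A := disjoint_left.2 fun a h1 h2 => hWp a h1 (hAp a h2)
  have hU : W ∪ A = univ := by ext x; by_cases hx : x.1 = 0 <;> simp [hW, hA, hx]
  have hEg : ∀ U ⊆ W, eg Sigma.fst (U ∪ A) = eg Sigma.fst U + n 0 * U.card := fun U hUW => by
    have e2 := eg_union_eq Sigma.fst (hWA.mono_left hUW) hAp
    rwa [filter_true_of_mem fun a ha => hWp a (hUW ha), hAc] at e2
  constructor
  · intro hSt
    obtain ⟨c, hc, hF, hd⟩ := cov_of_cover Sigma.fst (adj_iff n) hSt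
    have hA0 : ∀ a ∈ A, c a = 0 := fun a ha => by
      by_contra h0
      have := hd a h0
      rw [hdu, hAp a ha] at this; omega
    have hT : ∀ U ⊆ W, eg Sigma.fst (U ∪ A) ≤ ∑ v ∈ U, s * c v := fun U hUW => by
      have := hF (U ∪ A) (subset_univ _)
      rwa [sum_union (hWA.mono_left hUW), sum_eq_zero (s := A) (fun a ha => by simp [hA0 a ha]),
        add_zero] at this
    have hQc : ∀ v ∈ W, Q ≤ c v := fun v hv => by
      have h1 := hT {v} (by simpa using hv)
      rw [hEg {v} (by simpa using hv), sum_singleton, card_singleton] at h1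
      by_contra hc0
      have := Nat.mul_le_mul_left s (show c v + 1 ≤ Q by omega)
      rw [mul_add] at this; omega
    have hQ1 : Q ≠ 0 := by rintro rfl; omega
    set Z := W.filter fun v => Q + 1 ≤ c v with hZ
    have hk : Q * (N - n 0) + Z.card ≤ k := by
      have : ∑ v ∈ W, (Q + if Q + 1 ≤ c v then 1 else 0) ≤ ∑ v ∈ W, c v :=
        sum_le_sum fun v hv => by have := hQc v hv; split_ifs <;> omega
      rw [sum_add_distrib, ← card_filter, sum_const, smul_eq_mul, hin, mul_comm] at this
      exact this.trans (hc ▸ sum_le_sum_of_subset (subset_univ _))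
    refine ⟨?_, by omega, ?_⟩
    · have h1 : (⟨1, ⟨0, hp 1⟩⟩ : VV n) ∈ W := mem_filter.2 ⟨mem_univ _, by simp⟩
      have := hd _ (by have := hQc _ h1; omega : c ⟨1, ⟨0, hp 1⟩⟩ ≠ 0)
      rwa [hdu] at this
    · have hZW : Z ⊆ W := filter_subset _ _
      obtain ⟨U, hUZ, hUc⟩ := exists_subset_card_eq (s := W \ Z) (n := N - n 0 - z) (by
        rw [card_sdiff_of_subset hZW]; omega)
      have hUW : U ⊆ W := hUZ.trans sdiff_subset
      have h1 := hT U hUW
      have h2 : ∑ v ∈ U, s * c v ≤ ∑ _v ∈ U, s * Q := sum_le_sum fun v hv => by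
        have := mem_sdiff.1 (hUZ hv)
        refine Nat.mul_le_mul_left _ ?_
        by_contra hc0
        exact this.2 (mem_filter.2 ⟨this.1, by omega⟩)
      rw [sum_const, smul_eq_mul, hUc, mul_comm] at h2
      obtain ⟨T, hTs, hTc⟩ := exists_subset_card_eq (s := U ∪ A) (n := N - z) (by
        rw [card_union_of_disjoint (hWA.mono_left hUW), hUc, hAc]; omega)
      have h4 := edgesOn_le n hn T
      have h5 := eg_mono Sigma.fst hTs
      rw [hTc] at h4; omega
  · rintro ⟨h1, hk, hE⟩
    set t := N - n 0 - z with ht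
    have hc := card_low n (t := n 0 + t) (by omega)
    have hel := eg_low n (n 0 + t)
    set Lo := low n (n 0 + t) with hLo
    have hAL : A ⊆ Lo := fun a ha => by
      have h0 := hAp a ha
      obtain ⟨i, b⟩ := a
      simp only at h0; subst h0
      simp only [hLo, low, mem_filter, mem_univ, true_and, sum_Iio']
      have := b.2
      simp; omega
    set L := Lo ∩ W with hL
    have hLW : L ⊆ W := inter_subset_right
    have hLA : L ∪ A = Lo := by
      ext x; simp only [hL, mem_union, mem_inter]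
      constructor
      · rintro (h1 | h1); exacts [h1.1, hAL h1]
      · intro h1; have := hU ▸ mem_univ x; rw [mem_union] at this; tauto
    have hLc : L.card = t := by
      rw [← hLA, card_union_of_disjoint (hWA.mono_left hLW), hAc] at hc; omega
    obtain ⟨σ, hσ⟩ : ∃ σ, s * Q = n 0 + σ := ⟨s * Q - n 0, by omega⟩
    have e1 : eg Sigma.fst L ≤ L.card * σ := by
      rcases le_total z (N - n 0) with hz' | hz'
      · have e2 := hEg L hLW
        rw [hLA, hel, show n 0 + t = N - z by omega, hLc] at e2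
        rw [hσ, add_mul, mul_comm σ] at hE
        rw [hLc]; omega
      · have : L = ∅ := card_eq_zero.1 (by omega)
        rw [this]; simp [eg]
    have hb := balC Sigma.fst (W := L) (Lo := L) (lo := σ) (hi := σ) subset_rfl le_rfl
      (fun _ _ y hy hyL => absurd hy hyL) (by omega) e1 (fun y hy hyL => absurd hy hyL)
    set c : VV n → ℕ := fun v => if v ∈ A then 0 else if v ∈ L then Q else Q + 1 with hcd
    have hst := stripC Sigma.fst (w := fun v => s * c v) hAp (hWA.mono_left hLW) hb (fun v hv => by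
      simp only [hcd, if_neg (disjoint_left.1 hWA (hLW hv)), if_pos hv, if_pos (hWp v (hLW hv)), hAc]
      omega)
    have hall := covAdd Sigma.fst (U := univ) hst (fun v _ hv => by
      rw [mem_union, not_or] at hv
      simp only [hcd, if_neg hv.1, if_neg hv.2, hdu, mul_add]
      omega)
    have hdW : ∀ v : VV n, v.1 ≠ 0 → s ≤ dg Sigma.fst univ v := fun v hv => by
      have := hn (show (1 : Fin (r + 2)) ≤ v.1 from Fin.one_le_of_ne_zero hv)
      rw [hdu]; omega
    refine cover_of_cov_le Sigma.fst (adj_iff n) hall (fun v hv => hdW v fun h0 => hv ?_) ?_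
      ⟨1, ⟨0, hp 1⟩⟩ (hdW _ (by simp))
    · simp [hcd, hA, h0]
    · rw [← hU, sum_union hWA, sum_eq_zero (s := A) (fun a ha => by simp [hcd, ha]), add_zero,
        sum_congr rfl (fun v hv => if_neg (disjoint_left.1 hWA hv)), sum_two _ _ hLW,
        card_sdiff_of_subset hLW, hin, hLc]
      have e5 : Q * (N - n 0) = t * Q + (N - n 0 - t) * Q := by
        rw [← add_mul, mul_comm]; congr 1; omega
      rw [mul_add]; omega

end Pool.Agent.Lib.MP_b31404_co
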